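import Pool.Agent.V8H26.YB.End

/-!
# The law for the twists by polynomials which are not monic
-/

set_option autoImplicit false
set_option linter.all false

open Polynomial IsDedekindDomain WeierstrassCurve WeierstrassCurve.Affine Filter Topology
open scoped Classical

namespace Pool.Agent.V8H26.YB

open Pool.Agent.TH115.GD Pool.Agent.H341R2.Sharp Finset Pool.Agent.Y164.PS Pool.Agent.V8H26.XA
open Pool.Agent.V8H26.YA (spn ga ga_sum ga_prod Tw splS EvM NSpl NSq)

/-- a sum of quotients with the same limit -/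
theorem sum_ratio {κ : Type} (s : Finset κ) {x y : κ → ℕ → ℝ} {L : ℝ} {l : Filter ℕ}
    (hy : ∀ c ∈ s, ∀ᶠ n in l, 0 < y c n) (hs : s.Nonempty)
    (h : ∀ c ∈ s, Tendsto (fun n => x c n / y c n) l (𝓝 L)) :
    Tendsto (fun n => (∑ c ∈ s, x c n) / ∑ c ∈ s, y c n) l (𝓝 L) := by
  rw [Metric.tendsto_nhds]
  intro ε hε
  have h1 : ∀ᶠ n in l, ∀ c ∈ s, 0 < y c n ∧ |x c n / y c n - L| < ε := by
    rw [eventually_all_finset]
    intro c hc
    filter_upwards [hy c hc, (Metric.tendsto_nhds.1 (h c hc)) ε hε] with n h2 h3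
    exact ⟨h2, by rwa [Real.dist_eq] at h3⟩
  filter_upwards [h1] with n hn
  have hpos : 0 < ∑ c ∈ s, y c n := sum_pos (fun c hc => (hn c hc).1) hs
  rw [Real.dist_eq]
  have h4 : (∑ c ∈ s, x c n) / (∑ c ∈ s, y c n) - L =
      (∑ c ∈ s, (x c n / y c n - L) * y c n) / ∑ c ∈ s, y c n := by
    have h5 : ∑ c ∈ s, (x c n / y c n - L) * y c n = ∑ c ∈ s, x c n - L * ∑ c ∈ s, y c n := by
      rw [mul_sum, ← sum_sub_distrib]
      refine sum_congr rfl fun c hc => ?_
      have := (hn c hc).1.ne'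
      field_simp
    rw [h5, sub_div, mul_div_cancel_right₀ _ hpos.ne']
  rw [h4, abs_div, abs_of_pos hpos, div_lt_iff₀ hpos]
  calc |∑ c ∈ s, (x c n / y c n - L) * y c n| ≤ ∑ c ∈ s, |(x c n / y c n - L) * y c n| :=
        abs_sum_le_sum_abs _ _
    _ < ∑ c ∈ s, ε * y c n := by
        apply sum_lt_sum_of_nonempty hs
        intro c hc
        rw [abs_mul, abs_of_pos (hn c hc).1]
        exact mul_lt_mul_of_pos_right (hn c hc).2 (hn c hc).1
    _ = ε * ∑ c ∈ s, y c n := (mul_sum _ _ _).symm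

/-- the twists -/
def TwA {k : Type} [Field k] (a b : k[X]) (n : ℕ) : Set k[X] :=
  {D | D.natDegree = n ∧ Squarefree D ∧ IsCoprime D (a * b * (a - b)) ∧
    ∀ Q : k[X], Q.Monic → Irreducible Q → Q ∣ a * b * (a - b) → EvM Q (a * b * (a - b)) →
      NSpl a b D Q}

section
variable {k : Type} [Field k]

theorem cF (c : k) (a b : k[X]) : C c * a * (C c * b) * (C c * a - C c * b) =
    C (c ^ 3) * (a * b * (a - b)) := by
  rw [C_pow]
  ring

theorem isU {c : k} (hc : c ≠ 0) : IsUnit (C c : k[X]) := isUnit_C.2 (isUnit_iff_ne_zero.2 hc)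

theorem dvd_c {c : k} (hc : c ≠ 0) (Q f : k[X]) : Q ∣ C c * f ↔ Q ∣ f := (isU hc).dvd_mul_left

theorem nspl_c {c : k} (hc : c ≠ 0) (a b D Q : k[X]) :
    NSpl a b (C c * D) Q ↔ NSpl (C c * a) (C c * b) D Q := by
  have e1 : b * (C c * D) = C c * b * D := by ring
  have e2 : a * (C c * D) = C c * a * D := by ring
  have e3 : C c * b * (C c * a - C c * b) = C (c ^ 2) * (b * (a - b)) := by
    rw [C_pow]
    ring
  rw [NSpl, NSpl, e1, e2, e3, dvd_c hc, dvd_c (pow_ne_zero 2 hc)]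

theorem evM_c {c : k} (hc : c ≠ 0) (a b Q : k[X]) :
    EvM Q (C c * a * (C c * b) * (C c * a - C c * b)) ↔ EvM Q (a * b * (a - b)) := by
  rw [cF, EvM, EvM]
  simp only [dvd_c (pow_ne_zero 3 hc)]

theorem splS_c {c : k} (hc : c ≠ 0) (a b D : k[X]) :
    splS a b (C c * D) = splS (C c * a) (C c * b) D := by
  ext Q
  show (Q.Monic ∧ Irreducible Q ∧ Q ∣ a * b * (a - b) ∧ ¬ NSpl a b (C c * D) Q) ↔
    (Q.Monic ∧ Irreducible Q ∧ Q ∣ C c * a * (C c * b) * (C c * a - C c * b) ∧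
      ¬ NSpl (C c * a) (C c * b) D Q)
  rw [cF, dvd_c (pow_ne_zero 3 hc), nspl_c hc]

theorem twA_c {c : k} (hc : c ≠ 0) (a b D : k[X]) (n : ℕ) (hD : D.Monic) :
    C c * D ∈ TwA a b n ↔ D ∈ Tw (C c * a) (C c * b) n := by
  have h1 : (C c * D).natDegree = D.natDegree := natDegree_C_mul hc
  have h2 : Squarefree (C c * D) ↔ Squarefree D := by
    have : Associated (C c * D) D := associated_unit_mul_left D _ (isU hc)
    exact this.squarefree_iff
  have h3 : IsCoprime (C c * D) (a * b * (a - b)) ↔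
      IsCoprime D (C c * a * (C c * b) * (C c * a - C c * b)) := by
    rw [cF, isCoprime_mul_unit_left_left (isU hc),
      isCoprime_mul_unit_left_right (isU (pow_ne_zero 3 hc))]
  constructor
  · rintro ⟨m1, m2, m3, m4⟩
    refine ⟨hD, by rw [← h1]; exact m1, h2.1 m2, h3.1 m3, fun Q q1 q2 q3 q4 => ?_⟩
    rw [← nspl_c hc]
    refine m4 Q q1 q2 ?_ ((evM_c hc a b Q).1 q4)
    rw [cF, dvd_c (pow_ne_zero 3 hc)] at q3
    exact q3
  · rintro ⟨m0, m1, m2, m3, m4⟩
    refine ⟨by rw [h1]; exact m1, h2.2 m2, h3.2 m3, fun Q q1 q2 q3 q4 => ?_⟩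
    rw [nspl_c hc]
    refine m4 Q q1 q2 ?_ ((evM_c hc a b Q).2 q4)
    rw [cF, dvd_c (pow_ne_zero 3 hc)]
    exact q3

end

section
variable {k : Type} [Field k] [Fintype k] (K : Type) [Field K] [Algebra k[X] K]
  [IsFractionRing k[X] K]

/-- the leading coefficients -/
noncomputable def cs (k : Type) [Field k] [Fintype k] : Finset k := univ.filter fun c => c ≠ 0

theorem finTw (a b : k[X]) (n : ℕ) (G : k[X] → Prop) : {D ∈ Tw a b n | G D}.Finite := by
  refine ((Pool.Agent.Y164.PS.Sf k n).finite_toSet).subset ?_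
  rintro D ⟨⟨h1, h2, h3, -⟩, -⟩
  exact mem_Sf.2 ⟨h1, h2, h3⟩

theorem TwA_split (a b : k[X]) (n : ℕ) (G : k[X] → Prop) : ({D ∈ TwA a b n | G D}).ncard =
    ∑ c ∈ cs k, ({D ∈ Tw (C c * a) (C c * b) n | G (C c * D)}).ncard := by
  have h1 : {D ∈ TwA a b n | G D} = ⋃ c ∈ (cs k : Set k),
      (fun D => C c * D) '' {D ∈ Tw (C c * a) (C c * b) n | G (C c * D)} := by
    ext D
    rw [Set.mem_iUnion₂]
    constructor
    · rintro ⟨h1, h2⟩
      have hD0 : D ≠ 0 := h1.2.1.ne_zero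
      have hl : D.leadingCoeff ≠ 0 := leadingCoeff_ne_zero.2 hD0
      refine ⟨D.leadingCoeff, mem_coe.2 (mem_filter.2 ⟨mem_univ _, hl⟩), C D.leadingCoeff⁻¹ * D, ?_, ?_⟩
      · have e : C D.leadingCoeff * (C D.leadingCoeff⁻¹ * D) = D := by
          rw [← mul_assoc, ← C_mul, mul_inv_cancel₀ hl, C_1, one_mul]
        have hm : (C D.leadingCoeff⁻¹ * D).Monic := by
          rw [mul_comm]
          exact monic_mul_leadingCoeff_inv hD0
        refine ⟨(twA_c hl a b _ n hm).1 (by rw [e]; exact h1), ?_⟩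
        rw [e]
        exact h2
      · show C D.leadingCoeff * (C D.leadingCoeff⁻¹ * D) = D
        rw [← mul_assoc, ← C_mul, mul_inv_cancel₀ hl, C_1, one_mul]
    · rintro ⟨c, hc, D', ⟨h1, h2⟩, rfl⟩
      have hc' : c ≠ 0 := (mem_filter.1 (mem_coe.1 hc)).2
      exact ⟨(twA_c hc' a b D' n h1.1).2 h1, h2⟩
  have hfin : ∀ c ∈ (cs k : Set k), ((fun D => C c * D) ''
      {D ∈ Tw (C c * a) (C c * b) n | G (C c * D)}).Finite := fun c _ =>
    (finTw _ _ n _).image _
  have hdis : (cs k : Set k).PairwiseDisjoint fun c => (fun D => C c * D) ''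
      {D ∈ Tw (C c * a) (C c * b) n | G (C c * D)} := by
    intro c hc c' hc' hne
    rw [Function.onFun, Set.disjoint_left]
    rintro D ⟨D', ⟨h1, -⟩, rfl⟩ ⟨D'', ⟨h2, -⟩, h3⟩
    apply hne
    have h4 := congrArg leadingCoeff h3
    simp only [leadingCoeff_mul, leadingCoeff_C] at h4
    rw [h1.1.leadingCoeff, h2.1.leadingCoeff, mul_one, mul_one] at h4
    exact h4.symm
  rw [h1, Set.ncard_eq_toFinset_card _ ((cs k).finite_toSet.biUnion hfin)]
  have h2 : ((cs k).finite_toSet.biUnion hfin).toFinset = (cs k).biUnion fun c =>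
      ((finTw (C c * a) (C c * b) n fun D => G (C c * D)).image (fun D => C c * D)).toFinset := by
    ext D
    simp only [Set.Finite.mem_toFinset, Set.mem_iUnion, mem_biUnion, mem_coe, exists_prop]
  rw [h2, card_biUnion]
  · refine sum_congr rfl fun c hc => ?_
    have hc' : c ≠ 0 := (mem_filter.1 hc).2
    rw [← Set.ncard_coe_finset, Set.Finite.coe_toFinset, Set.ncard_image_of_injective]
    intro D D' h
    exact mul_left_cancel₀ (C_ne_zero.2 hc') h
  · intro c hc c' hc' hne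
    have h3 := hdis hc hc' hne
    rw [Function.onFun] at h3 ⊢
    rw [disjoint_left]
    intro D hD hD'
    rw [Set.Finite.mem_toFinset] at hD hD'
    exact Set.disjoint_left.1 h3 hD hD'

theorem so_c (c : k) (a b D : k[X]) : so k K a b (C c * D) = so k K (C c * a) (C c * b) D := by
  have e1 : b * (C c * D) = C c * b * D := by ring
  have e2 : a * (C c * D) = C c * a * D := by ring
  rw [so, so, e1, e2]

end

/-- the final form -/
theorem finalA {k : Type} [Field k] [Finite k] (h2 : (2 : k) ≠ 0) (hi : IsSquare (-1 : k))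
    (K : Type) [Field K] [Algebra k[X] K] [IsFractionRing k[X] K] (a b : k[X]) (N : ℕ)
    (hco : IsCoprime a b) (da : a.natDegree = N) (db : b.natDegree = N) (dc : (a - b).natDegree = N)
    (s1 : ∀ (c : k) (h : k[X]), a * b ≠ C c * h ^ 2)
    (s2 : ∀ (c : k) (h : k[X]), a * (a - b) ≠ C c * h ^ 2)
    (s3 : ∀ (c : k) (h : k[X]), b * (a - b) ≠ C c * h ^ 2) :
    (∃ c : ℝ, 0 < c ∧ ∀ᶠ n : ℕ in atTop, c * (Nat.card k : ℝ) ^ n ≤ ((TwA a b n).ncard : ℝ)) ∧
    (∀ r : ℕ, Tendsto (fun n : ℕ => (({D ∈ TwA a b n | so k K a b D = 2 ^ (r + 2)}).ncard : ℝ) /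
      ((TwA a b n).ncard : ℝ)) atTop (𝓝 (ga r))) ∧
    (∀ n : ℕ, 1 ≤ n → ∀ D ∈ TwA a b n,
      (∃ r : ℕ, Even (r + (splS a b D).ncard) ∧ so k K a b D = 2 ^ (r + 2)) ∧
      (so k K a b D = 4 ↔
        Finite (Pt (crv (algebraMap k[X] K (a * D)) (algebraMap k[X] K (b * D))) K) ∧
        ShaTwo k (crv (algebraMap k[X] K (a * D)) (algebraMap k[X] K (b * D))))) ∧
    ∀ T : Set k[X], (∀ Q ∈ T, Q.Monic ∧ Irreducible Q ∧ Q ∣ a * b * (a - b) ∧
        ¬ EvM Q (a * b * (a - b))) →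
      Tendsto (fun n : ℕ => (({D ∈ TwA a b n | splS a b D = T}).ncard : ℝ) /
          ((TwA a b n).ncard : ℝ)) atTop
        (𝓝 (1 / 2 ^ ({Q : k[X] | Q.Monic ∧ Irreducible Q ∧ Q ∣ a * b * (a - b) ∧
          ¬ EvM Q (a * b * (a - b))}.ncard))) ∧
      ∀ r : ℕ, Even (r + T.ncard) → Tendsto (fun n : ℕ =>
        (({D ∈ TwA a b n | splS a b D = T ∧ so k K a b D = 2 ^ (r + 2)}).ncard : ℝ) /
          (({D ∈ TwA a b n | splS a b D = T}).ncard : ℝ)) atTop (𝓝 (2 * ga r)) := by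
  letI : Fintype k := Fintype.ofFinite k
  have hc0 : ∀ c ∈ cs k, c ≠ 0 := fun c hc => (mem_filter.1 hc).2
  have hcs : (cs k).Nonempty := ⟨1, mem_filter.2 ⟨mem_univ _, one_ne_zero⟩⟩
  have hF : ∀ c ∈ cs k, _ := fun c hc =>
    final h2 hi K (C c * a) (C c * b) N
      ((isCoprime_mul_unit_left_left (isU (hc0 c hc)) _ _).2
        ((isCoprime_mul_unit_left_right (isU (hc0 c hc)) _ _).2 hco))
      ((natDegree_C_mul (hc0 c hc)).trans da) ((natDegree_C_mul (hc0 c hc)).trans db)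
      (by rw [← mul_sub]; exact (natDegree_C_mul (hc0 c hc)).trans dc)
      (fun e h he => s1 (e / c ^ 2) h (by
        have h5 : C (c ^ 2) * (a * b) = C (c ^ 2) * (C (e / c ^ 2) * h ^ 2) := by
          rw [← mul_assoc (C (c ^ 2)) (C _), ← C_mul, mul_div_cancel₀ _ (pow_ne_zero 2 (hc0 c hc)),
            ← he, C_pow]
          ring
        exact mul_left_cancel₀ (C_ne_zero.2 (pow_ne_zero 2 (hc0 c hc))) h5))
      (fun e h he => s2 (e / c ^ 2) h (by
        have h5 : C (c ^ 2) * (a * (a - b)) = C (c ^ 2) * (C (e / c ^ 2) * h ^ 2) := by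
          rw [← mul_assoc (C (c ^ 2)) (C _), ← C_mul, mul_div_cancel₀ _ (pow_ne_zero 2 (hc0 c hc)),
            ← he, C_pow]
          ring
        exact mul_left_cancel₀ (C_ne_zero.2 (pow_ne_zero 2 (hc0 c hc))) h5))
      (fun e h he => s3 (e / c ^ 2) h (by
        have h5 : C (c ^ 2) * (b * (a - b)) = C (c ^ 2) * (C (e / c ^ 2) * h ^ 2) := by
          rw [← mul_assoc (C (c ^ 2)) (C _), ← C_mul, mul_div_cancel₀ _ (pow_ne_zero 2 (hc0 c hc)),
            ← he, C_pow]
          ring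
        exact mul_left_cancel₀ (C_ne_zero.2 (pow_ne_zero 2 (hc0 c hc))) h5))
  have hT : ∀ n, ((TwA a b n).ncard : ℝ) =
      ∑ c ∈ cs k, ((Tw (C c * a) (C c * b) n).ncard : ℝ) := by
    intro n
    have h1 := TwA_split a b n (fun _ => True)
    have e1 : {D ∈ TwA a b n | True} = TwA a b n := by
      ext D
      exact ⟨fun h => h.1, fun h => ⟨h, trivial⟩⟩
    have e2 : ∀ c : k, {D ∈ Tw (C c * a) (C c * b) n | True} = Tw (C c * a) (C c * b) n := by
      intro c
      ext D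
      exact ⟨fun h => h.1, fun h => ⟨h, trivial⟩⟩
    rw [e1] at h1
    simp only [e2] at h1
    rw [h1]
    push_cast
    rfl
  have hpos : ∀ c ∈ cs k, ∀ᶠ n : ℕ in atTop, 0 < ((Tw (C c * a) (C c * b) n).ncard : ℝ) := by
    intro c hc
    obtain ⟨e, he, h⟩ := (hF c hc).1
    filter_upwards [h] with n hn
    refine lt_of_lt_of_le ?_ hn
    have : (0 : ℝ) < Nat.card k := by exact_mod_cast Nat.card_pos
    positivity
  refine ⟨?_, ?_, ?_, ?_⟩
  · obtain ⟨e, he, h⟩ := (hF 1 (mem_filter.2 ⟨mem_univ _, one_ne_zero⟩)).1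
    refine ⟨e, he, ?_⟩
    filter_upwards [h] with n hn
    rw [hT]
    refine hn.trans ?_
    exact single_le_sum (f := fun c => ((Tw (C c * a) (C c * b) n).ncard : ℝ))
      (fun c _ => Nat.cast_nonneg _) (mem_filter.2 ⟨mem_univ _, one_ne_zero⟩)
  · intro r
    have h1 := sum_ratio (cs k)
      (x := fun c n => (({D ∈ Tw (C c * a) (C c * b) n |
        so k K (C c * a) (C c * b) D = 2 ^ (r + 2)}).ncard : ℝ))
      (y := fun c n => ((Tw (C c * a) (C c * b) n).ncard : ℝ)) hpos hcs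
      (fun c hc => (hF c hc).2.1 r)
    refine h1.congr fun n => ?_
    rw [hT, TwA_split a b n (fun D => so k K a b D = 2 ^ (r + 2))]
    simp only [so_c]
    push_cast
    rfl
  · intro n hn D hD
    have hD0 : D ≠ 0 := hD.2.1.ne_zero
    have hl : D.leadingCoeff ≠ 0 := leadingCoeff_ne_zero.2 hD0
    have e : C D.leadingCoeff * (C D.leadingCoeff⁻¹ * D) = D := by
      rw [← mul_assoc, ← C_mul, mul_inv_cancel₀ hl, C_1, one_mul]
    have hm : (C D.leadingCoeff⁻¹ * D).Monic := by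
      rw [mul_comm]
      exact monic_mul_leadingCoeff_inv hD0
    obtain ⟨c, hc⟩ : ∃ c, c = D.leadingCoeff := ⟨_, rfl⟩
    obtain ⟨D', hD'⟩ : ∃ D', D' = C D.leadingCoeff⁻¹ * D := ⟨_, rfl⟩
    rw [← hc] at hl
    rw [← hD'] at hm e
    rw [← hc] at e
    rw [← e] at hD
    have h5 := (twA_c hl a b D' n hm).1 hD
    obtain ⟨⟨r, m1, m2⟩, m3⟩ := (hF c (mem_filter.2 ⟨mem_univ _, hl⟩)).2.2.1 n hn D' h5
    rw [← so_c] at m2 m3
    rw [← splS_c hl] at m1
    have e1 : b * D = C c * b * D' := by rw [← e]; ring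
    have e2 : a * D = C c * a * D' := by rw [← e]; ring
    rw [← e1, ← e2] at m3
    rw [e] at m1 m2 m3
    exact ⟨⟨r, m1, m2⟩, m3⟩
  · intro T hTs
    have hTc : ∀ c ∈ cs k, ∀ Q ∈ T, Q.Monic ∧ Irreducible Q ∧
        Q ∣ C c * a * (C c * b) * (C c * a - C c * b) ∧
        ¬ EvM Q (C c * a * (C c * b) * (C c * a - C c * b)) := by
      intro c hc Q hQ
      obtain ⟨q1, q2, q3, q4⟩ := hTs Q hQ
      refine ⟨q1, q2, ?_, fun h => q4 ((evM_c (hc0 c hc) a b Q).1 h)⟩
      rw [cF, dvd_c (pow_ne_zero 3 (hc0 c hc))]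
      exact q3
    have hset : ∀ c ∈ cs k, {Q : k[X] | Q.Monic ∧ Irreducible Q ∧
        Q ∣ C c * a * (C c * b) * (C c * a - C c * b) ∧
        ¬ EvM Q (C c * a * (C c * b) * (C c * a - C c * b))} =
        {Q : k[X] | Q.Monic ∧ Irreducible Q ∧ Q ∣ a * b * (a - b) ∧ ¬ EvM Q (a * b * (a - b))} := by
      intro c hc
      ext Q
      show (Q.Monic ∧ Irreducible Q ∧ Q ∣ C c * a * (C c * b) * (C c * a - C c * b) ∧
        ¬ EvM Q (C c * a * (C c * b) * (C c * a - C c * b))) ↔ (Q.Monic ∧ Irreducible Q ∧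
          Q ∣ a * b * (a - b) ∧ ¬ EvM Q (a * b * (a - b)))
      rw [evM_c (hc0 c hc), cF, dvd_c (pow_ne_zero 3 (hc0 c hc))]
    have hm : ∀ c ∈ cs k, Tendsto (fun n : ℕ =>
        (({D ∈ Tw (C c * a) (C c * b) n | splS (C c * a) (C c * b) D = T}).ncard : ℝ) /
          ((Tw (C c * a) (C c * b) n).ncard : ℝ)) atTop
        (𝓝 (1 / 2 ^ ({Q : k[X] | Q.Monic ∧ Irreducible Q ∧ Q ∣ a * b * (a - b) ∧
          ¬ EvM Q (a * b * (a - b))}.ncard))) := by
      intro c hc
      rw [← hset c hc]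
      exact ((hF c hc).2.2.2 T (hTc c hc)).1
    have hsp : ∀ n (c : k), c ∈ cs k → {D ∈ Tw (C c * a) (C c * b) n | splS a b (C c * D) = T} =
        {D ∈ Tw (C c * a) (C c * b) n | splS (C c * a) (C c * b) D = T} := by
      intro n c hc
      ext D
      show (D ∈ Tw (C c * a) (C c * b) n ∧ splS a b (C c * D) = T) ↔
        (D ∈ Tw (C c * a) (C c * b) n ∧ splS (C c * a) (C c * b) D = T)
      rw [splS_c (hc0 c hc)]
    constructor
    · have h1 := sum_ratio (cs k)
        (x := fun c n => (({D ∈ Tw (C c * a) (C c * b) n |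
          splS (C c * a) (C c * b) D = T}).ncard : ℝ))
        (y := fun c n => ((Tw (C c * a) (C c * b) n).ncard : ℝ)) hpos hcs hm
      refine h1.congr fun n => ?_
      have e2 : ∑ c ∈ cs k, ({D ∈ Tw (C c * a) (C c * b) n | splS a b (C c * D) = T}).ncard =
          ∑ c ∈ cs k, ({D ∈ Tw (C c * a) (C c * b) n | splS (C c * a) (C c * b) D = T}).ncard :=
        sum_congr rfl fun c hc => by rw [hsp n c hc]
      rw [hT, TwA_split a b n (fun D => splS a b D = T), e2]
      push_cast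
      rfl
    · intro r hr
      have hpos' : ∀ c ∈ cs k, ∀ᶠ n : ℕ in atTop,
          0 < (({D ∈ Tw (C c * a) (C c * b) n | splS (C c * a) (C c * b) D = T}).ncard : ℝ) := by
        intro c hc
        have h3 : (0 : ℝ) < 1 / 2 ^ ({Q : k[X] | Q.Monic ∧ Irreducible Q ∧ Q ∣ a * b * (a - b) ∧
          ¬ EvM Q (a * b * (a - b))}.ncard) := by positivity
        filter_upwards [(hm c hc).eventually_const_lt h3, hpos c hc] with n h4 h5
        by_contra h6
        push Not at h6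
        have := div_nonpos_of_nonpos_of_nonneg h6 h5.le
        linarith
      have h1 := sum_ratio (cs k)
        (x := fun c n => (({D ∈ Tw (C c * a) (C c * b) n | splS (C c * a) (C c * b) D = T ∧
          so k K (C c * a) (C c * b) D = 2 ^ (r + 2)}).ncard : ℝ))
        (y := fun c n => (({D ∈ Tw (C c * a) (C c * b) n |
          splS (C c * a) (C c * b) D = T}).ncard : ℝ)) hpos' hcs
        (fun c hc => ((hF c hc).2.2.2 T (hTc c hc)).2 r hr)
      refine h1.congr fun n => ?_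
      have hsp' : ∀ (c : k), c ∈ cs k → {D ∈ Tw (C c * a) (C c * b) n |
          splS a b (C c * D) = T ∧ so k K a b (C c * D) = 2 ^ (r + 2)} =
          {D ∈ Tw (C c * a) (C c * b) n | splS (C c * a) (C c * b) D = T ∧
            so k K (C c * a) (C c * b) D = 2 ^ (r + 2)} := by
        intro c hc
        ext D
        show (D ∈ Tw (C c * a) (C c * b) n ∧ splS a b (C c * D) = T ∧
          so k K a b (C c * D) = 2 ^ (r + 2)) ↔
          (D ∈ Tw (C c * a) (C c * b) n ∧ splS (C c * a) (C c * b) D = T ∧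
          so k K (C c * a) (C c * b) D = 2 ^ (r + 2))
        rw [splS_c (hc0 c hc), so_c]
      have e2 : ∑ c ∈ cs k, ({D ∈ Tw (C c * a) (C c * b) n | splS a b (C c * D) = T}).ncard =
          ∑ c ∈ cs k, ({D ∈ Tw (C c * a) (C c * b) n | splS (C c * a) (C c * b) D = T}).ncard :=
        sum_congr rfl fun c hc => by rw [hsp n c hc]
      have e3 : ∑ c ∈ cs k, ({D ∈ Tw (C c * a) (C c * b) n |
          splS a b (C c * D) = T ∧ so k K a b (C c * D) = 2 ^ (r + 2)}).ncard =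
          ∑ c ∈ cs k, ({D ∈ Tw (C c * a) (C c * b) n | splS (C c * a) (C c * b) D = T ∧
            so k K (C c * a) (C c * b) D = 2 ^ (r + 2)}).ncard :=
        sum_congr rfl fun c hc => by rw [hsp' c hc]
      rw [TwA_split a b n (fun D => splS a b D = T), e2,
        TwA_split a b n (fun D => splS a b D = T ∧ so k K a b D = 2 ^ (r + 2)), e3]
      push_cast
      rfl

end Pool.Agent.V8H26.YB
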