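import Pool.Agent.V8H26.YB.Sol
import Pool.Agent.V8H26.YM.Man

/-!
# The space of the solutions of the equations
-/

set_option autoImplicit false
set_option linter.all false

namespace Pool.Agent.V8H26.YB

open Module Finset
open Pool.Agent.V8H26.XL (Arr V0 mem_V0 dL kr mem_kr rho parity F2s F2c vj vj_fst vj_snd)
open Pool.Agent.Y164.PS (W om om_add_left om_add_right om_comm om_self om_zero_left om_zero_right
  om_smul_left om_smul_right eq_zero_of_om W_add_self Dat V ks dg ws dg_ws ks_add dg_add TT dg_TT E1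
  E1_TT uu om_ks_self)
open Pool.Agent.V8H26.XA (om_pi)
open Pool.Agent.V8H26.YL (DE dt dt_apply dt_comm FB FB_apply FB_eq FF_key Eb Eb_add Eb_TT clA sp r0)
open Pool.Agent.V8H26.YA (FB_comm FB_key)
open scoped Classical

variable {ι τ : Type} [Fintype ι] [Fintype τ] (D : DE τ) (d : ι → ZMod 2) (A : Arr ι τ)

/-- the form with the constants -/
noncomputable def FX : LinearMap.BilinForm (ZMod 2) (V ι τ × W) :=
  LinearMap.mk₂ (ZMod 2) (fun p p' => FB D d A p.1 p'.1 + om p.2 (dg D.toDat d p'.1) +
      om p'.2 (dg D.toDat d p.1))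
    (fun p p' q => by
      simp only [Prod.fst_add, Prod.snd_add, map_add, LinearMap.add_apply, om_add_left, om_add_right,
        dg_add]
      ring)
    (fun c p q => by
      have h : dg D.toDat d (c • p.1) = c • dg D.toDat d p.1 := (dL D.toDat d).map_smul c p.1
      simp only [Prod.smul_fst, Prod.smul_snd, map_smul, LinearMap.smul_apply, om_smul_left, h,
        om_smul_right, smul_eq_mul]
      ring)
    (fun p q q' => by
      simp only [Prod.fst_add, Prod.snd_add, map_add, LinearMap.add_apply, om_add_left, om_add_right,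
        dg_add]
      ring)
    (fun c p q => by
      have h : dg D.toDat d (c • q.1) = c • dg D.toDat d q.1 := (dL D.toDat d).map_smul c q.1
      simp only [Prod.smul_fst, Prod.smul_snd, map_smul, LinearMap.smul_apply, om_smul_left, h,
        om_smul_right, smul_eq_mul]
      ring)

theorem FX_apply (p p' : V ι τ × W) : FX D d A p p' =
    FB D d A p.1 p'.1 + om p.2 (dg D.toDat d p'.1) + om p'.2 (dg D.toDat d p.1) := rfl

theorem FX_symm (p p' : V ι τ × W) : FX D d A p p' = FX D d A p' p := by
  rw [FX_apply, FX_apply, FB_comm]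
  ring

theorem FB_diag (w : V ι τ) : FB D d A w w = FB D d A w ws + om (dg D.toDat d w) (uu D.l) := by
  have h1 : ∀ w', FB D d A w w' = Pool.Agent.V8H26.YL.fm D d A 0 w w' +
      om (ks D.l (dg D.toDat d w)) (dg D.toDat d w') := by
    intro w'
    rw [FB_apply, Pool.Agent.V8H26.YL.fm_eq, Pool.Agent.V8H26.XL.fm_apply,
      Pool.Agent.V8H64.FF.Phi]
    simp only [Pi.zero_apply, zero_mul, sum_const_zero, add_zero]
    have h2 : ∀ x y z : ZMod 2, x + y = x + z + y + z := by decide
    exact h2 _ _ _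
  rw [h1, h1, Pool.Agent.V8H26.YL.fm_diag, dg_ws, om_zero_right, add_zero, om_ks_self]

/-- the characteristic vector -/
def zX : V ι τ × W := (ws, uu D.l)

theorem FX_diag (p : V ι τ × W) : FX D d A p p = FX D d A p (zX D) := by
  rw [FX_apply, FX_apply]
  show _ = FB D d A p.1 ws + om p.2 (dg D.toDat d ws) + om (uu D.l) (dg D.toDat d p.1)
  rw [FB_diag, dg_ws, om_zero_right, add_zero, om_comm (uu D.l)]
  rw [add_assoc (FB D d A p.1 ws + _), F2s, add_zero]

theorem FX_z : FX D d A (zX D) (zX D) = (Fintype.card τ : ZMod 2) + (sp D : ZMod 2) := by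
  have h1 : FX D d A (zX D) (zX D) = FB D d A ws ws + om (uu D.l) (dg D.toDat d ws) +
      om (uu D.l) (dg D.toDat d ws) := rfl
  rw [h1, dg_ws, om_zero_right, add_zero, add_zero, ← Pool.Agent.V8H26.YL.fm_ws (d := d) A 0,
    FB_apply, Pool.Agent.V8H26.YL.fm_eq, Pool.Agent.V8H26.XL.fm_apply, Pool.Agent.V8H64.FF.Phi]
  simp only [Pi.zero_apply, zero_mul, sum_const_zero, add_zero, dg_ws, om_zero_right]

/-- the solutions of the equations -/
noncomputable def SX : Submodule (ZMod 2) (V ι τ × W) := kr (FX D d A) ⊤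

variable {D d A}

theorem mem_SX' {p : V ι τ × W} : p ∈ SX D d A ↔ dg D.toDat d p.1 = 0 ∧
    ∀ w', FB D d A p.1 w' + om p.2 (dg D.toDat d w') = 0 := by
  rw [SX, mem_kr]
  constructor
  · rintro ⟨-, h⟩
    constructor
    · apply eq_zero_of_om
      intro y
      have h1 := h (0, y) trivial
      have h2 : FX D d A p (0, y) = FB D d A p.1 0 + om p.2 (dg D.toDat d (0 : V ι τ)) +
        om y (dg D.toDat d p.1) := rfl
      have h3 : dg D.toDat d (0 : V ι τ) = 0 := (dL D.toDat d).map_zero
      rw [h2, map_zero, h3, om_zero_right, zero_add, zero_add, om_comm] at h1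
      exact h1
    · intro w'
      have h1 := h (w', 0) trivial
      have h2 : FX D d A p (w', 0) = FB D d A p.1 w' + om p.2 (dg D.toDat d w') +
        om 0 (dg D.toDat d p.1) := rfl
      rw [h2, om_zero_left, add_zero] at h1
      exact h1
  · rintro ⟨h1, h2⟩
    refine ⟨trivial, fun q _ => ?_⟩
    rw [FX_apply, h1, om_zero_right, add_zero]
    exact h2 q.1

theorem mem_SX {p : V ι τ × W} : p ∈ SX D d A ↔ dg D.toDat d p.1 = 0 ∧
    (∀ i, E1 (A := A.A) D.toDat A.B d p.1 p.2 i = 0) ∧ ∀ s, Eb D A.B p.1 p.2 s = 0 := by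
  rw [mem_SX']
  apply and_congr_right
  intro h0
  constructor
  · intro hw
    have key : ∀ w' : V ι τ, ∑ i, om (E1 (A := A.A) D.toDat A.B d p.1 p.2 i) (w'.1 i) +
        ∑ s, Eb D A.B p.1 p.2 s * w'.2 s = 0 := by
      intro w'
      rw [← FB_key D d A p.1 p.2 w', hw]
    constructor
    · intro i
      apply eq_zero_of_om
      intro z
      have h1 := key (Pi.single i z, 0)
      have h2 : ∑ s, Eb D A.B p.1 p.2 s * (0 : τ → ZMod 2) s = 0 := by simp
      have h3 : ∑ j, om (E1 (A := A.A) D.toDat A.B d p.1 p.2 j) ((Pi.single i z : ι → W) j) +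
        ∑ s, Eb D A.B p.1 p.2 s * (0 : τ → ZMod 2) s = 0 := h1
      rw [h2, add_zero, om_pi] at h3
      exact h3
    · intro s
      have h1 := key (0, Pi.single s 1)
      have h2 : ∑ i, om (E1 (A := A.A) D.toDat A.B d p.1 p.2 i) ((0 : ι → W) i) = 0 :=
        sum_eq_zero fun i _ => om_zero_right _
      have h3 : ∑ i, om (E1 (A := A.A) D.toDat A.B d p.1 p.2 i) ((0 : ι → W) i) +
        ∑ s', Eb D A.B p.1 p.2 s' * (Pi.single s 1 : τ → ZMod 2) s' = 0 := h1
      rw [h2, zero_add, sum_eq_single s] at h3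
      · rw [Pi.single_eq_same, mul_one] at h3
        exact h3
      · intro j _ hj
        rw [Pi.single_eq_of_ne hj, mul_zero]
      · intro h
        exact absurd (mem_univ _) h
  · rintro ⟨h1, h2⟩ w'
    rw [FB_key]
    simp only [h1, h2, om_zero_left, zero_mul, sum_const_zero, add_zero]

/-- the parity of the dimension -/
theorem SX_mod (hτ : Nonempty τ) : finrank (ZMod 2) (SX D d A) % 2 = sp D % 2 := by
  have hz : (zX D : V ι τ × W) ≠ 0 := by
    intro h
    have h1 := congrArg Prod.fst h
    exact Pool.Agent.V8H26.XL.ws_ne hτ h1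
  have h2 := parity (FX_symm D d A) (FX_diag D d A) hz ⊤ trivial
  have h3 : finrank (ZMod 2) (⊤ : Submodule (ZMod 2) (V ι τ × W)) =
      2 * Fintype.card ι + Fintype.card τ + 2 := by
    rw [finrank_top]
    show finrank (ZMod 2) (((ι → ZMod 2 × ZMod 2) × (τ → ZMod 2)) × (ZMod 2 × ZMod 2)) = _
    rw [finrank_prod, finrank_prod, finrank_prod, finrank_self, finrank_pi, finrank_pi_fintype]
    simp only [finrank_prod, finrank_self, sum_const, card_univ, smul_eq_mul]
    ring
  rw [h3, FX_z, ← Nat.cast_add, ZMod.natCast_eq_zero_iff_even] at h2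
  have h4 : rho (FX D d A) ⊤ = finrank (ZMod 2) (SX D d A) := rfl
  rw [h4, Nat.even_iff, Nat.even_iff] at h2
  omega

/-- the points of order two -/
theorem TT_mem (hcl : clA D A) (hN : ∑ i, d i + D.N = 0) (y : W) :
    ((TT D.toDat y, ks D.l y) : V ι τ × W) ∈ SX D d A := by
  rw [mem_SX]
  refine ⟨?_, fun i => E1_TT D.toDat A.B d y i, fun s => Eb_TT D hcl y s⟩
  show dg D.toDat d (TT D.toDat y) = 0
  rw [dg_TT, hN, zero_smul]

/-- the points of order two, as a linear map -/
noncomputable def tL (hcl : clA D A) (hN : ∑ i, d i + D.N = 0) : W →ₗ[ZMod 2] SX D d A where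
  toFun y := ⟨(TT D.toDat y, ks D.l y), TT_mem hcl hN y⟩
  map_add' y y' := by
    apply Subtype.ext
    show ((TT D.toDat (y + y'), ks D.l (y + y')) : V ι τ × W) =
      (TT D.toDat y + TT D.toDat y', ks D.l y + ks D.l y')
    rw [ks_add]
    refine Prod.ext (Prod.ext ?_ ?_) rfl
    · rfl
    · funext s
      exact om_add_left _ _ _
  map_smul' c y := by
    apply Subtype.ext
    rcases F2c c with rfl | rfl
    · rw [zero_smul, RingHom.id_apply, zero_smul]
      show ((TT D.toDat 0, ks D.l 0) : V ι τ × W) = 0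
      refine Prod.ext (Prod.ext ?_ ?_) ?_
      · rfl
      · funext s
        exact om_zero_left _
      · have h := ks_add D.l 0 0
        rw [add_zero] at h
        have h2 : ks D.l 0 + ks D.l 0 = 0 := W_add_self _
        rw [← h] at h2
        exact h2
    · rw [one_smul, RingHom.id_apply, one_smul]

theorem tL_inj (j : ι) (hcl : clA D A) (hN : ∑ i, d i + D.N = 0) :
    Function.Injective (tL hcl hN) := by
  intro y y' h
  have h1 : ((TT D.toDat y, ks D.l y) : V ι τ × W) = (TT D.toDat y', ks D.l y') :=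
    congrArg Subtype.val h
  exact congrFun (congrArg (fun p : V ι τ × W => p.1.1) h1) j

theorem finrank_W : finrank (ZMod 2) W = 2 := by
  show finrank (ZMod 2) (ZMod 2 × ZMod 2) = 2
  rw [finrank_prod, finrank_self]

theorem SX_two (j : ι) (hcl : clA D A) (hN : ∑ i, d i + D.N = 0) :
    2 ≤ finrank (ZMod 2) (SX D d A) := by
  exact le_of_eq_of_le finrank_W.symm
    (LinearMap.finrank_le_finrank_of_injective (tL_inj j hcl hN))

/-- if the dimension is two, there are only the points of order two -/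
theorem SX_surj (j : ι) (hcl : clA D A) (hN : ∑ i, d i + D.N = 0)
    (h2 : finrank (ZMod 2) (SX D d A) = 2) {p : V ι τ × W} (hp : p ∈ SX D d A) :
    ∃ y : W, p = (TT D.toDat y, ks D.l y) := by
  have h1 := (LinearMap.injective_iff_surjective_of_finrank_eq_finrank (f := tL hcl hN)
    (by rw [finrank_W, h2])).1 (tL_inj j hcl hN)
  obtain ⟨y, hy⟩ := h1 ⟨p, hp⟩
  exact ⟨y, (congrArg Subtype.val hy).symm⟩

/-- if some degree is odd, the dimension is the dimension of the kernel -/
theorem SX_r0 {j : ι} (hj : d j = 1) : finrank (ZMod 2) (SX D d A) = r0 D d A := by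
  have hvj : ∀ y : W, dg D.toDat d (vj j y) = y := fun y => by
    rw [Pool.Agent.V8H26.YM.dg_vj, hj, one_smul]
  have hmem : ∀ p : SX D d A, p.1.1 ∈ kr (FB D d A) (V0 D.toDat d) := by
    rintro ⟨p, hp⟩
    obtain ⟨h1, h2⟩ := mem_SX'.1 hp
    refine ⟨(mem_V0 _ _).2 h1, fun v hv => ?_⟩
    have h3 := h2 v
    rw [(mem_V0 _ _).1 hv, om_zero_right, add_zero] at h3
    exact h3
  let φ : SX D d A →ₗ[ZMod 2] kr (FB D d A) (V0 D.toDat d) :=
    LinearMap.codRestrict _ ((LinearMap.fst (ZMod 2) (V ι τ) W).comp (SX D d A).subtype) hmem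
  have hbij : Function.Bijective φ := by
    constructor
    · intro p q h
      have h1 : p.1.1 = q.1.1 := congrArg Subtype.val h
      have h2 : p.1.2 = q.1.2 := by
        have h3 : p.1.2 + q.1.2 = 0 := by
          apply eq_zero_of_om
          intro y
          have h4 := (mem_SX'.1 p.2).2 (vj j y)
          have h5 := (mem_SX'.1 q.2).2 (vj j y)
          rw [hvj] at h4 h5
          rw [om_add_left]
          rw [h1] at h4
          have key : ∀ x y z : ZMod 2, x + y = 0 → x + z = 0 → y + z = 0 := by decide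
          exact key _ _ _ h4 h5
        have key : ∀ x y : W, x + y = 0 → x = y := by decide
        exact key _ _ h3
      exact Subtype.ext (Prod.ext h1 h2)
    · rintro ⟨w, hw⟩
      obtain ⟨h1, h2⟩ := hw
      have h1' := (mem_V0 _ _).1 h1
      refine ⟨⟨(w, (FB D d A w (vj j (0, 1)), FB D d A w (vj j (1, 0)))), ?_⟩, rfl⟩
      rw [mem_SX']
      refine ⟨h1', fun w' => ?_⟩
      set y := dg D.toDat d w' with hy
      have h3 : w' + vj j y ∈ V0 D.toDat d := by
        rw [mem_V0, dg_add, hvj, ← hy, W_add_self]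
      have h4 := h2 _ h3
      have h5 : vj (τ := τ) j y = y.1 • vj j (1, 0) + y.2 • vj j (0, 1) := by
        rw [vj, vj, vj]
        refine Prod.ext ?_ ?_
        · show (Pi.single j y : ι → W) = y.1 • (Pi.single j (1, 0) : ι → W) +
            y.2 • (Pi.single j (0, 1) : ι → W)
          rw [← Pi.single_smul, ← Pi.single_smul, ← Pi.single_add]
          congr 1
          have key : ∀ y : W, y = y.1 • ((1, 0) : W) + y.2 • ((0, 1) : W) := by decide
          exact key y
        · show (0 : τ → ZMod 2) = y.1 • (0 : τ → ZMod 2) + y.2 • (0 : τ → ZMod 2)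
          rw [smul_zero, smul_zero, add_zero]
      rw [map_add, h5, map_add, map_smul, map_smul] at h4
      show FB D d A w w' + om (FB D d A w (vj j (0, 1)), FB D d A w (vj j (1, 0))) y = 0
      rw [om]
      simp only [smul_eq_mul] at h4
      have key : ∀ x u v y1 y2 : ZMod 2, x + (y1 * v + y2 * u) = 0 → x + (u * y2 + v * y1) = 0 := by
        decide
      exact key _ _ _ _ _ h4
  exact (LinearEquiv.ofBijective φ hbij).finrank_eq

end Pool.Agent.V8H26.YB
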