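import Pool.Agent.V8H26.YB.Sel
import Pool.Agent.V8H26.YA.End

/-!
# The law of the 2-Selmer groups of all twists, without any condition at infinity
-/

set_option autoImplicit false
set_option linter.all false

open Polynomial IsDedekindDomain WeierstrassCurve WeierstrassCurve.Affine Filter Topology
open scoped Classical

namespace Pool.Agent.V8H26.YB

open Pool.Agent.TH115.GD Pool.Agent.H341R2.Sharp Finset Pool.Agent.Y164.PS Pool.Agent.V8H26.XA
open Pool.Agent.V8H26.YL (P1E P2E gclE be be_mem be_even cnt_law)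
open Pool.Agent.V8H26.XL (F2s F2c)
open Pool.Agent.V8H26.YA (spn ga ga_sum ga_prod CE mem_CE CE_card CE_half odd_card Tw_split Tw_split'
  Tw splS EvM NSpl sgn mem_Tw gclE_iff splS_card sgT sgT_hep sgT_spn mem_cls one_cls law_cls)

/-- convergence along the two parities -/
theorem tt_par {f : ℕ → ℝ} {x : ℝ} {N : ℕ}
    (h1 : Tendsto f (atTop ⊓ 𝓟 {n : ℕ | (n : F2) + (N : F2) = 1}) (𝓝 x))
    (h0 : Tendsto f (atTop ⊓ 𝓟 {n : ℕ | (n : F2) + (N : F2) = 0}) (𝓝 x)) :
    Tendsto f atTop (𝓝 x) := by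
  have h2 := h1.sup h0
  have h3 : (atTop ⊓ 𝓟 {n : ℕ | (n : F2) + (N : F2) = 1}) ⊔
      (atTop ⊓ 𝓟 {n : ℕ | (n : F2) + (N : F2) = 0}) = (atTop : Filter ℕ) := by
    rw [← inf_sup_left, sup_principal]
    have h4 : {n : ℕ | (n : F2) + (N : F2) = 1} ∪ {n : ℕ | (n : F2) + (N : F2) = 0} = Set.univ := by
      ext n
      simp only [Set.mem_union, Set.mem_setOf_eq, Set.mem_univ, iff_true]
      exact (F2c ((n : F2) + (N : F2))).symm
    rw [h4, principal_univ, inf_top_eq]
  rwa [h3] at h2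

section
variable {k : Type} [Field k] [Fintype k] [DecidableEq k] (K : Type) [Field K] [Algebra k[X] K]
  [IsFractionRing k[X] K]
variable {a b : k[X]} {N : ℕ} (H : Hyp a b N) {ep : Tau a b → F2}
  (hep : ∀ s, tv a b s = 0 → ep s = 1)

include H hep in
/-- the law in a class -/
theorem law_all (hq : 4 ≤ Fintype.card k)
    (h2t : ∀ u : W, u ≠ 0 → ∃ s, om u ((datum H).t s) ≠ 0) {r : ℕ} (hr : r % 2 = spn ep % 2) :
    Tendsto (fun n : ℕ => (((Sf k n).filter (P2E (fun D => so k K a b D = 2 ^ (r + 2)) a b ep)).card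
      : ℝ) / (((Sf k n).filter (P1E a b ep)).card : ℝ)) atTop (𝓝 (be r)) :=
  tt_par (law_cls K H hep hq h2t hr) (law_clsR K H hep hq h2t hr)

include H hep in
/-- the statement for one polynomial in a class -/
theorem one_all {n : ℕ} (hn : 1 ≤ n) (hτ : Nonempty (Tau a b))
    {D : k[X]} (hSf : D ∈ Sf k n) (hP1 : P1E a b ep D) :
    (∃ r : ℕ, r % 2 = spn ep % 2 ∧ so k K a b D = 2 ^ (r + 2)) ∧
      (so k K a b D = 4 ↔
        Finite (Pt (crv (algebraMap k[X] K (a * D)) (algebraMap k[X] K (b * D))) K) ∧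
        ShaTwo k (crv (algebraMap k[X] K (a * D)) (algebraMap k[X] K (b * D)))) := by
  rcases F2c ((n : F2) + (N : F2)) with h | h
  · exact one_clsR K H hep hn h hτ hSf hP1
  · exact one_cls K H hep hn h hτ hSf hP1

end

/-- the final form -/
theorem final {k : Type} [Field k] [Finite k] (h2 : (2 : k) ≠ 0) (hi : IsSquare (-1 : k))
    (K : Type) [Field K] [Algebra k[X] K] [IsFractionRing k[X] K] (a b : k[X]) (N : ℕ)
    (hco : IsCoprime a b) (da : a.natDegree = N) (db : b.natDegree = N) (dc : (a - b).natDegree = N)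
    (s1 : ∀ (c : k) (h : k[X]), a * b ≠ C c * h ^ 2)
    (s2 : ∀ (c : k) (h : k[X]), a * (a - b) ≠ C c * h ^ 2)
    (s3 : ∀ (c : k) (h : k[X]), b * (a - b) ≠ C c * h ^ 2) :
    (∃ c : ℝ, 0 < c ∧ ∀ᶠ n : ℕ in atTop, c * (Nat.card k : ℝ) ^ n ≤ ((Tw a b n).ncard : ℝ)) ∧
    (∀ r : ℕ, Tendsto (fun n : ℕ => (({D ∈ Tw a b n | so k K a b D = 2 ^ (r + 2)}).ncard : ℝ) /
      ((Tw a b n).ncard : ℝ)) atTop (𝓝 (ga r))) ∧
    (∀ n : ℕ, 1 ≤ n → ∀ D ∈ Tw a b n,
      (∃ r : ℕ, Even (r + (splS a b D).ncard) ∧ so k K a b D = 2 ^ (r + 2)) ∧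
      (so k K a b D = 4 ↔
        Finite (Pt (crv (algebraMap k[X] K (a * D)) (algebraMap k[X] K (b * D))) K) ∧
        ShaTwo k (crv (algebraMap k[X] K (a * D)) (algebraMap k[X] K (b * D))))) ∧
    ∀ T : Set k[X], (∀ Q ∈ T, Q.Monic ∧ Irreducible Q ∧ Q ∣ a * b * (a - b) ∧
        ¬ EvM Q (a * b * (a - b))) →
      Tendsto (fun n : ℕ => (({D ∈ Tw a b n | splS a b D = T}).ncard : ℝ) /
          ((Tw a b n).ncard : ℝ)) atTop
        (𝓝 (1 / 2 ^ ({Q : k[X] | Q.Monic ∧ Irreducible Q ∧ Q ∣ a * b * (a - b) ∧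
          ¬ EvM Q (a * b * (a - b))}.ncard))) ∧
      ∀ r : ℕ, Even (r + T.ncard) → Tendsto (fun n : ℕ =>
        (({D ∈ Tw a b n | splS a b D = T ∧ so k K a b D = 2 ^ (r + 2)}).ncard : ℝ) /
          (({D ∈ Tw a b n | splS a b D = T}).ncard : ℝ))
        atTop (𝓝 (2 * ga r)) := by
  letI : Fintype k := Fintype.ofFinite k
  have ha0 : a ≠ 0 := by
    rintro rfl
    exact s1 0 0 (by simp)
  have hb0 : b ≠ 0 := by
    rintro rfl
    exact s1 0 0 (by simp)
  have hab : a ≠ b := by
    rintro rfl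
    exact s2 0 0 (by simp)
  have hchar : ringChar k ≠ 2 := by
    intro h
    apply h2
    have := ringChar.Nat.cast_ringChar (R := k)
    rw [h] at this
    exact_mod_cast this
  have H : Hyp a b N := ⟨hchar, hi, ha0, hb0, hab, hco, da, db, dc⟩
  have hq : 4 ≤ Fintype.card k := by
    -- `-1` is a square and `2 ≠ 0`
    by_contra hlt
    push Not at hlt
    obtain ⟨i, hi'⟩ := hi
    have n0 : (0 : k) ≠ 1 := zero_ne_one
    have n1 : (1 : k) ≠ -1 := by
      intro h
      apply h2
      have : (2 : k) = 1 + 1 := by norm_num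
      rw [this]
      nth_rewrite 2 [h]
      ring
    have i0 : i ≠ 0 := by
      rintro rfl
      rw [mul_zero] at hi'
      exact neg_ne_zero.2 one_ne_zero hi'
    have i1 : i ≠ 1 := by
      rintro rfl
      rw [mul_one] at hi'
      exact n1 hi'.symm
    have i2 : i ≠ -1 := by
      rintro rfl
      apply n1
      rw [hi']
      ring
    have hcard : ({0, 1, -1, i} : Finset k).card = 4 := by
      rw [card_insert_of_notMem, card_insert_of_notMem, card_insert_of_notMem, card_singleton]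
      · rw [mem_singleton]; exact fun h => i2 h.symm
      · rw [mem_insert, mem_singleton]
        push Not
        exact ⟨n1, fun h => i1 h.symm⟩
      · rw [mem_insert, mem_insert, mem_singleton]
        push Not
        exact ⟨n0, fun h => neg_ne_zero.2 one_ne_zero h.symm, fun h => i0 h.symm⟩
    have := card_le_univ ({0, 1, -1, i} : Finset k)
    rw [hcard] at this
    omega
  have hcN : (Nat.card k : ℝ) = (Fintype.card k : ℝ) := by rw [Nat.card_eq_fintype_card]
  have h2t := two_types H s1 s2 s3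
  obtain ⟨s0, hs0⟩ := h2t (1, 0) (by decide)
  have hτ : Nonempty (Tau a b) := ⟨s0⟩
  have ht0 : tv a b s0 ≠ 0 := by
    intro h
    apply hs0
    show om (1, 0) (tv a b s0) = 0
    rw [h, om_zero_right]
  obtain ⟨t2, ht2⟩ : ∃ t2 : ℝ, t2 = 2 ^ Fintype.card (Tau a b) := ⟨_, rfl⟩
  have ht2p : 0 < t2 := by rw [ht2]; exact pow_pos (by norm_num) _
  have hCEp : 0 < ((CE a b).card : ℝ) := by
    rw [CE_card]
    push_cast
    positivity
  have hx : (0 : ℝ) < (CE a b).card / t2 := div_pos hCEp ht2p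
  have hx2 : (0 : ℝ) < (CE a b).card / t2 / 2 := half_pos hx
  set nbc : ℕ → ℝ := fun n => (((Sf k n).filter (nb a b)).card : ℝ) with hnbc
  obtain ⟨c0, hc0, hlow⟩ := nb_lower H hq
  have hqp : (0 : ℝ) < Fintype.card k := by exact_mod_cast Fintype.card_pos
  have hnbp : ∀ᶠ n : ℕ in atTop, 0 < nbc n := by
    filter_upwards [hlow] with n hn
    refine lt_of_lt_of_le ?_ hn
    positivity
  have hcl1 : ∀ ep : Tau a b → F2, Tendsto (fun n : ℕ =>
      (((Sf k n).filter (P1E a b ep)).card : ℝ) / nbc n) atTop (𝓝 (1 / t2)) := fun ep => by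
    rw [ht2]
    exact cnt_law H ep hq
  -- the number of all twists
  have hTw : Tendsto (fun n : ℕ => ((Tw a b n).ncard : ℝ) / nbc n) atTop
      (𝓝 ((CE a b).card / t2)) := by
    have h1 : (fun n : ℕ => ((Tw a b n).ncard : ℝ) / nbc n) = fun n =>
        ∑ ep ∈ CE a b, (((Sf k n).filter (P1E a b ep)).card : ℝ) / nbc n := by
      funext n
      rw [Tw_split' H]
      push_cast
      rw [sum_div]
    have h2 : ((CE a b).card / t2 : ℝ) = ∑ ep ∈ CE a b, 1 / t2 := by
      rw [sum_const, nsmul_eq_mul]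
      ring
    rw [h1, h2]
    exact tendsto_finset_sum _ fun ep _ => hcl1 ep
  have hTwp : ∀ᶠ n : ℕ in atTop, 0 < ((Tw a b n).ncard : ℝ) := by
    filter_upwards [hTw.eventually_const_lt hx, hnbp] with n h3 h4
    by_contra h5
    push Not at h5
    have := div_nonpos_of_nonpos_of_nonneg h5 h4.le
    linarith
  have hcp : ∀ ep : Tau a b → F2, ∀ᶠ n : ℕ in atTop,
      0 < (((Sf k n).filter (P1E a b ep)).card : ℝ) := by
    intro ep
    have h1 : (0 : ℝ) < 1 / t2 := by positivity
    filter_upwards [(hcl1 ep).eventually_const_lt h1, hnbp] with n h3 h4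
    by_contra h5
    push Not at h5
    have := div_nonpos_of_nonpos_of_nonneg h5 h4.le
    linarith
  -- the law in a class
  have hcl2 : ∀ r : ℕ, ∀ ep ∈ CE a b, Tendsto (fun n : ℕ =>
      (((Sf k n).filter (P2E (fun D => so k K a b D = 2 ^ (r + 2)) a b ep)).card : ℝ) / nbc n)
      atTop (𝓝 (if r % 2 = spn ep % 2 then be r / t2 else 0)) := by
    intro r ep hep
    have hep' := mem_CE.1 hep
    split_ifs with hr
    · have h1 := law_all K H hep' hq h2t hr
      have h3 := h1.mul (hcl1 ep)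
      have h4 : be r * (1 / t2) = be r / t2 := by ring
      rw [h4] at h3
      refine h3.congr' ?_
      filter_upwards [hcp ep] with n hn
      exact div_mul_div_cancel₀ hn.ne'
    · refine (tendsto_const_nhds (x := (0 : ℝ))).congr' ?_
      filter_upwards [eventually_ge_atTop 1] with n hn
      have h1 : ((Sf k n).filter (P2E (fun D => so k K a b D = 2 ^ (r + 2)) a b ep)) = ∅ := by
        rw [filter_eq_empty_iff]
        rintro D hD ⟨h3, h4⟩
        obtain ⟨⟨r', h5, h6⟩, -⟩ := one_all K H hep' hn hτ hD h3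
        have h7 : 2 ^ (r' + 2) = 2 ^ (r + 2) := h6.symm.trans h4
        have h8 := Nat.pow_right_injective (le_refl 2) h7
        apply hr
        omega
      rw [h1, card_empty, Nat.cast_zero, zero_div]
  have hF : ∀ r : ℕ, Tendsto (fun n : ℕ =>
      (({D ∈ Tw a b n | so k K a b D = 2 ^ (r + 2)}).ncard : ℝ) / nbc n)
      atTop (𝓝 ((CE a b).card / t2 * ga r)) := by
    intro r
    have h1 : (fun n : ℕ => (({D ∈ Tw a b n | so k K a b D = 2 ^ (r + 2)}).ncard : ℝ) / nbc n) =
        fun n => ∑ ep ∈ CE a b,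
          (((Sf k n).filter (P2E (fun D => so k K a b D = 2 ^ (r + 2)) a b ep)).card : ℝ) / nbc n := by
      funext n
      rw [Tw_split H n (fun D => so k K a b D = 2 ^ (r + 2))]
      push_cast
      rw [sum_div]
    have h2 : ((CE a b).card / t2 * ga r : ℝ) =
        ∑ ep ∈ CE a b, (if r % 2 = spn ep % 2 then be r / t2 else 0) := by
      rw [← sum_filter, sum_const, nsmul_eq_mul, ga]
      have h3 := CE_half ht0 r
      have h4 : (2 : ℝ) * ((CE a b).filter fun ep => r % 2 = spn ep % 2).card = (CE a b).card := by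
        exact_mod_cast h3
      rw [← h4]
      ring
    rw [h1, h2]
    exact tendsto_finset_sum _ fun ep hep => hcl2 r ep hep
  refine ⟨?_, ?_, ?_, ?_⟩
  · refine ⟨c0 * ((CE a b).card / t2 / 2), mul_pos hc0 hx2, ?_⟩
    have h1 : ((CE a b).card / t2 / 2 : ℝ) < (CE a b).card / t2 := half_lt_self hx
    filter_upwards [hTw.eventually_const_lt h1, hlow, hnbp] with n h3 h4 h5
    rw [hcN]
    have h6 := (lt_div_iff₀ h5).1 h3
    calc c0 * ((CE a b).card / t2 / 2) * (Fintype.card k : ℝ) ^ n =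
        ((CE a b).card / t2 / 2) * (c0 * (Fintype.card k : ℝ) ^ n) := by ring
      _ ≤ ((CE a b).card / t2 / 2) * nbc n := mul_le_mul_of_nonneg_left h4 hx2.le
      _ ≤ _ := h6.le
  · intro r
    have h1 := (hF r).div hTw hx.ne'
    have h3 : ((CE a b).card / t2 * ga r) / ((CE a b).card / t2) = ga r :=
      mul_div_cancel_left₀ _ hx.ne'
    rw [h3] at h1
    refine h1.congr' ?_
    filter_upwards [hnbp, hTwp] with n hn hn'
    exact div_div_div_cancel_right₀ hn.ne' _ _
  · intro n hn D hD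
    obtain ⟨m1, m2, m3⟩ := (mem_Tw H).1 hD
    obtain ⟨⟨r, h1, h3⟩, h4⟩ := one_all K H (ep := sgn a b D) m3 hn hτ m1
      ⟨m2, gclE_iff.2 rfl⟩
    refine ⟨⟨r, ?_, h3⟩, h4⟩
    rw [splS_card H m2, Nat.even_iff]
    omega
  · intro T hT
    have hep := sgT_hep H hT
    have e1 : ∀ n (G : k[X] → Prop), ({D ∈ Tw a b n | splS a b D = T ∧ G D}).ncard =
        ((Sf k n).filter (P2E G a b (sgT a b T))).card := by
      intro n G
      rw [← Set.ncard_coe_finset]
      congr 1
      ext D
      rw [Finset.mem_coe, mem_filter, P2E]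
      have := mem_cls H hT (n := n) (D := D)
      show (D ∈ Tw a b n ∧ splS a b D = T ∧ G D) ↔ _
      tauto
    have e2 : ∀ n, ({D ∈ Tw a b n | splS a b D = T}).ncard =
        ((Sf k n).filter (P1E a b (sgT a b T))).card := by
      intro n
      rw [← Set.ncard_coe_finset]
      congr 1
      ext D
      rw [Finset.mem_coe, mem_filter]
      exact mem_cls H hT
    constructor
    · have h1 := (hcl1 (sgT a b T)).div hTw hx.ne'
      have h3 : (1 / t2) / ((CE a b).card / t2) = 1 / 2 ^ ({Q : k[X] | Q.Monic ∧ Irreducible Q ∧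
          Q ∣ a * b * (a - b) ∧ ¬ EvM Q (a * b * (a - b))}.ncard) := by
        rw [← odd_card H]
        have h5 : ((CE a b).card : ℝ) = 2 ^ (univ.filter fun s : Tau a b => tv a b s ≠ 0).card := by
          rw [CE_card]
          push_cast
          rfl
        rw [← h5]
        exact div_div_div_cancel_right₀ ht2p.ne' _ _
      rw [h3] at h1
      refine h1.congr' ?_
      filter_upwards [hnbp, hTwp] with n hn hn'
      rw [e2]
      exact div_div_div_cancel_right₀ hn.ne' _ _
    · intro r hr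
      have hr' : r % 2 = spn (sgT a b T) % 2 := by
        rw [sgT_spn H hT]
        rw [Nat.even_iff] at hr
        omega
      have h1 := law_all K H hep hq h2t hr'
      have h3 : 2 * ga r = be r := by rw [ga]; ring
      rw [h3]
      refine h1.congr fun n => ?_
      rw [e1 n (fun D => so k K a b D = 2 ^ (r + 2)), e2]

end Pool.Agent.V8H26.YB
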