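import Pool.Agent.V8H26.YA.Fin

/-!
# The place at infinity, if it has good reduction
-/

set_option autoImplicit false
set_option linter.all false

open Polynomial IsDedekindDomain WeierstrassCurve WeierstrassCurve.Affine
open scoped Classical

namespace Pool.Agent.V8H26.YB

open Pool.Agent.TH115.GD Pool.Agent.H341R2.Sharp Finset Pool.Agent.Y164.PS Pool.Agent.V8H26.XA

section
variable {k K : Type} [Field k] [Field K] [Algebra k[X] K] [IsFractionRing k[X] K]

/-- a polynomial of even degree has the class of its leading coefficient -/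
theorem sq_lc (h2 : (2 : k) ≠ 0) {p : k[X]} (hp : p ≠ 0) (he : Even p.natDegree) :
    SqEq (algebraMap K (CompInf k K) (algebraMap k[X] K p))
      (algebraMap K (CompInf k K) (algebraMap k[X] K (C p.leadingCoeff))) := by
  have hl : p.leadingCoeff ≠ 0 := leadingCoeff_ne_zero.2 hp
  have h1 := monic_mul_leadingCoeff_inv hp
  have h3 : (p * C p.leadingCoeff⁻¹).natDegree = p.natDegree :=
    natDegree_mul_C (inv_ne_zero hl)
  have h4 := sq_inf' (K := K) h2 h1 (by rw [h3]; exact he)
  have h5 : p = p * C p.leadingCoeff⁻¹ * C p.leadingCoeff := by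
    rw [mul_assoc, ← C_mul, inv_mul_cancel₀ hl, C_1, mul_one]
  have h6 := h4.mul (SqEq.refl (algebraMap K (CompInf k K) (algebraMap k[X] K (C p.leadingCoeff))))
  rw [one_mul, ← map_mul, ← map_mul, ← h5] at h6
  exact h6

theorem sqEq_const {x y : k} (h : SqEq x y) :
    SqEq (algebraMap K (CompInf k K) (algebraMap k[X] K (C x)))
      (algebraMap K (CompInf k K) (algebraMap k[X] K (C y))) := by
  obtain ⟨c, hc, e⟩ := h
  refine ⟨algebraMap K (CompInf k K) (algebraMap k[X] K (C c)), ?_, ?_⟩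
  · have : (algebraMap k[X] K (C c)) ≠ 0 := by simpa using hc
    exact (_root_.map_ne_zero _).2 this
  · rw [e]
    simp only [map_mul, map_pow]

/-- polynomials of even degree whose leading coefficients have the same class -/
theorem sqEq_inf (h2 : (2 : k) ≠ 0) {p q : k[X]} (hp : p ≠ 0) (hq : q ≠ 0)
    (ep : Even p.natDegree) (eq : Even q.natDegree) (h : SqEq p.leadingCoeff q.leadingCoeff) :
    SqEq (algebraMap K (CompInf k K) (algebraMap k[X] K p))
      (algebraMap K (CompInf k K) (algebraMap k[X] K q)) :=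
  ((sq_lc h2 hp ep).trans (sqEq_const h)).trans (sq_lc h2 hq eq).symm

/-- the leading coefficient of a sum with a monomial -/
theorem lc_sub {A : k[X]} {m : ℕ} (hA : A.natDegree = m) {x : k} (hx : x ≠ A.leadingCoeff) :
    (C x * X ^ m - A).natDegree = m ∧ (C x * X ^ m - A).leadingCoeff = x - A.leadingCoeff ∧
      C x * X ^ m - A ≠ 0 := by
  have h1 : (C x * X ^ m - A).coeff m = x - A.leadingCoeff := by
    rw [coeff_sub, coeff_C_mul, coeff_X_pow, if_pos rfl, mul_one, leadingCoeff, hA]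
  have h3 : (C x * X ^ m - A).coeff m ≠ 0 := by
    rw [h1]
    exact sub_ne_zero.2 hx
  have h4 : (C x * X ^ m - A).natDegree ≤ m := by
    refine (natDegree_sub_le _ _).trans (max_le ?_ hA.le)
    exact natDegree_C_mul_X_pow_le _ _
  have h5 : (C x * X ^ m - A).natDegree = m := le_antisymm h4 (le_natDegree_of_ne_zero h3)
  refine ⟨h5, ?_, fun h => h3 (by rw [h, coeff_zero])⟩
  rw [leadingCoeff, h5, h1]

end

section
variable {k K : Type} [Field k] [Fintype k] [DecidableEq k] [Field K] [Algebra k[X] K]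
  [IsFractionRing k[X] K]

theorem good_inf (h2 : (2 : k) ≠ 0) {A B p0 p1 : k[X]} {m : ℕ} (hA : A ≠ 0) (hB : B ≠ 0)
    (hAB : A - B ≠ 0) (dA : A.natDegree = 2 * m) (dB : B.natDegree = 2 * m)
    (dAB : (A - B).natDegree = 2 * m) (h0 : p0 ≠ 0) (h1 : p1 ≠ 0) (e0 : Even p0.natDegree)
    (e1 : Even p1.natDegree) :
    (∃ T : Pt (crv (algebraMap k[X] K A) (algebraMap k[X] K B)) K,
      SqEq (algebraMap K (CompInf k K) (algebraMap k[X] K p0))
        (algebraMap K (CompInf k K) (d0 (algebraMap k[X] K A) (algebraMap k[X] K B) T)) ∧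
      SqEq (algebraMap K (CompInf k K) (algebraMap k[X] K p1))
        (algebraMap K (CompInf k K) (d1 (algebraMap k[X] K A) (algebraMap k[X] K B) T))) ∨
    ∃ x y : CompInf k K,
      y ^ 2 = x * (x - algebraMap K (CompInf k K) (algebraMap k[X] K A)) *
        (x - algebraMap K (CompInf k K) (algebraMap k[X] K B)) ∧ x ≠ 0 ∧
      x ≠ algebraMap K (CompInf k K) (algebraMap k[X] K A) ∧
      SqEq (algebraMap K (CompInf k K) (algebraMap k[X] K p0)) x ∧
      SqEq (algebraMap K (CompInf k K) (algebraMap k[X] K p1))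
        (x - algebraMap K (CompInf k K) (algebraMap k[X] K A)) := by
  have h2K : (2 : K) ≠ 0 := tt h2
  have inj := IsFractionRing.injective k[X] K
  have haK : algebraMap k[X] K A ≠ 0 := by simpa using hA
  have hbK : algebraMap k[X] K B ≠ 0 := by simpa using hB
  have habK : algebraMap k[X] K A ≠ algebraMap k[X] K B := fun h => hAB (by
    rw [inj h, sub_self])
  obtain ⟨⟨T1, -, o2, o3⟩, ⟨T2, -, o5, o6⟩⟩ := tor_pt h2K haK hbK habK
  obtain ⟨T3, -, o8, o9⟩ := tor_pt3 h2K haK hbK habK
  have la : A.leadingCoeff ≠ 0 := leadingCoeff_ne_zero.2 hA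
  have lb : B.leadingCoeff ≠ 0 := leadingCoeff_ne_zero.2 hB
  have lab : (A - B).leadingCoeff = A.leadingCoeff - B.leadingCoeff := by
    rw [leadingCoeff, dAB, coeff_sub, leadingCoeff, leadingCoeff, dA, dB]
  have lne : A.leadingCoeff ≠ B.leadingCoeff := by
    intro h
    have h3 : (A - B).leadingCoeff ≠ 0 := leadingCoeff_ne_zero.2 hAB
    rw [lab, h, sub_self] at h3
    exact h3 rfl
  have ev : Even (2 * m) := even_two_mul m
  have dmul : ∀ {p q : k[X]}, p ≠ 0 → q ≠ 0 → p.natDegree = 2 * m → q.natDegree = 2 * m →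
      Even (p * q).natDegree := by
    intro p q hp hq h h'
    rw [natDegree_mul hp hq, h, h']
    exact ⟨2 * m, rfl⟩
  obtain ⟨Q, q0, q1⟩ := fin_cover h2 la lb lne (leadingCoeff_ne_zero.2 h0)
    (leadingCoeff_ne_zero.2 h1)
  have hE := isE A.leadingCoeff B.leadingCoeff k h2 la lb lne
  rcases Q with _ | ⟨x, y, hxy⟩
  · left
    have q0' : SqEq p0.leadingCoeff (1 : k[X]).leadingCoeff := by
      rw [leadingCoeff_one]; exact q0
    have q1' : SqEq p1.leadingCoeff (1 : k[X]).leadingCoeff := by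
      rw [leadingCoeff_one]; exact q1
    refine ⟨0, ?_, ?_⟩
    · have h4 := sqEq_inf (K := K) h2 h0 one_ne_zero e0 (by rw [natDegree_one]; exact ⟨0, rfl⟩) q0'
      rwa [map_one] at h4
    · have h4 := sqEq_inf (K := K) h2 h1 one_ne_zero e1 (by rw [natDegree_one]; exact ⟨0, rfl⟩) q1'
      rwa [map_one] at h4
  · simp only [d0, d1] at q0 q1
    by_cases x0 : x = 0
    · left
      refine ⟨T1, ?_, ?_⟩
      · rw [if_pos x0, ← leadingCoeff_mul] at q0
        have h4 := sqEq_inf (K := K) h2 h0 (mul_ne_zero hA hB) e0 (dmul hA hB dA dB) q0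
        rw [o2, ← map_mul (algebraMap k[X] K)]
        exact h4
      · rw [if_neg (by rw [x0]; exact la.symm), x0, zero_sub, ← leadingCoeff_neg] at q1
        have h4 := sqEq_inf (K := K) h2 h1 (neg_ne_zero.2 hA) e1
          (by rw [natDegree_neg, dA]; exact ev) q1
        rw [o3, ← map_neg (algebraMap k[X] K)]
        exact h4
    by_cases xa : x = A.leadingCoeff
    · left
      refine ⟨T2, ?_, ?_⟩
      · rw [if_neg x0, xa] at q0
        have h4 := sqEq_inf (K := K) h2 h0 hA e0 (by rw [dA]; exact ev) q0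
        rw [o5]
        exact h4
      · rw [if_pos xa, ← lab, ← leadingCoeff_mul] at q1
        have h4 := sqEq_inf (K := K) h2 h1 (mul_ne_zero hA hAB) e1 (dmul hA hAB dA dAB) q1
        rw [o6, ← map_sub (algebraMap k[X] K), ← map_mul (algebraMap k[X] K)]
        exact h4
    by_cases xb : x = B.leadingCoeff
    · left
      have hBA : B - A ≠ 0 := fun h => hAB (by
        have : A - B = -(B - A) := by ring
        rw [this, h, neg_zero])
      have dBA : (B - A).natDegree = 2 * m := by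
        have : B - A = -(A - B) := by ring
        rw [this, natDegree_neg, dAB]
      have lba : (B - A).leadingCoeff = B.leadingCoeff - A.leadingCoeff := by
        rw [leadingCoeff, dBA, coeff_sub, leadingCoeff, leadingCoeff, dA, dB]
      refine ⟨T3, ?_, ?_⟩
      · rw [if_neg x0, xb] at q0
        have h4 := sqEq_inf (K := K) h2 h0 hB e0 (by rw [dB]; exact ev) q0
        rw [o8]
        exact h4
      · rw [if_neg xa, xb, ← lba] at q1
        have h4 := sqEq_inf (K := K) h2 h1 hBA e1 (by rw [dBA]; exact ev) q1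
        rw [o9, ← map_sub (algebraMap k[X] K)]
        exact h4
    right
    rw [if_neg x0] at q0
    rw [if_neg xa] at q1
    have he : y ^ 2 = x * (x - A.leadingCoeff) * (x - B.leadingCoeff) := hE.nonsingular.1 hxy
    have y0 : y ≠ 0 := by
      rintro rfl
      rw [zero_pow two_ne_zero] at he
      exact mul_ne_zero (mul_ne_zero x0 (sub_ne_zero.2 xa)) (sub_ne_zero.2 xb) he.symm
    obtain ⟨a1, a2, a3⟩ := lc_sub dA xa
    obtain ⟨b1, b2, b3⟩ := lc_sub dB xb
    have c3 : C x * X ^ (2 * m) ≠ (0 : k[X]) := mul_ne_zero (C_ne_zero.2 x0) (pow_ne_zero _ X_ne_zero)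
    have c1 : (C x * X ^ (2 * m) : k[X]).natDegree = 2 * m := natDegree_C_mul_X_pow _ _ x0
    have c2 : (C x * X ^ (2 * m) : k[X]).leadingCoeff = x := leadingCoeff_C_mul_X_pow _ _
    set j := algebraMap K (CompInf k K) with hj
    have h3 : SqEq ((C x * X ^ (2 * m)) * (C x * X ^ (2 * m) - A) *
        (C x * X ^ (2 * m) - B)).leadingCoeff (1 : k[X]).leadingCoeff := by
      rw [leadingCoeff_mul, leadingCoeff_mul, a2, b2, c2, leadingCoeff_one, ← he]
      exact ⟨y, y0, (mul_one _).symm⟩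
    have h4 := sqEq_inf (K := K) h2 (mul_ne_zero (mul_ne_zero c3 a3) b3) one_ne_zero (by
      rw [natDegree_mul (mul_ne_zero c3 a3) b3, natDegree_mul c3 a3, a1, b1, c1]
      exact ⟨3 * m, by ring⟩) (by rw [natDegree_one]; exact ⟨0, rfl⟩) h3
    obtain ⟨y'', -, ey⟩ := h4
    rw [map_one, map_one, mul_one] at ey
    refine ⟨j (algebraMap k[X] K (C x * X ^ (2 * m))), y'', ?_, ?_, ?_, ?_, ?_⟩
    · rw [← ey]
      simp only [map_mul, map_sub]
      rfl
    · intro h5
      apply c3
      have h6 : algebraMap k[X] K (C x * X ^ (2 * m)) = 0 := (_root_.map_eq_zero j).1 h5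
      exact (IsFractionRing.to_map_eq_zero_iff (K := K)).1 h6
    · intro h5
      apply a3
      have h6 := inj (j.injective h5)
      rw [h6, sub_self]
    · exact sqEq_inf (K := K) h2 h0 c3 e0 (by rw [c1]; exact ev) (by rw [c2]; exact q0)
    · rw [← map_sub, ← map_sub]
      exact sqEq_inf (K := K) h2 h1 a3 e1 (by rw [a1]; exact ev) (by rw [a2]; exact q1)

/-- the parities at infinity -/
theorem par_inf (h2 : (2 : k) ≠ 0) {A B p0 p1 : k[X]} {m : ℕ} (hA : A ≠ 0) (hB : B ≠ 0)
    (hAB : A - B ≠ 0) (dA : A.natDegree = 2 * m) (dB : B.natDegree = 2 * m)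
    (dAB : (A - B).natDegree = 2 * m) (h0 : p0 ≠ 0) (h1 : p1 ≠ 0) {a0 a1 c0 c1 : K}
    (f0 : a0 = c0 ^ 2 * algebraMap k[X] K p0) (f1 : a1 = c1 ^ 2 * algebraMap k[X] K p1)
    (n0 : c0 ≠ 0) (n1 : c1 ≠ 0)
    (hls : LSg (F := K) k (crv (algebraMap k[X] K A) (algebraMap k[X] K B)) (algebraMap k[X] K A)
      (algebraMap k[X] K B) a0 a1) : Even p0.natDegree ∧ Even p1.natDegree := by
  have hne : A ≠ B := fun h => hAB (by rw [h, sub_self])
  have hs := locR_inf h2 hA hB hne hls
  have vA : vInf k K (algebraMap k[X] K A) = WithZero.exp ((2 * m : ℕ) : ℤ) := by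
    rw [vInf_poly hA, dA]
  have vB : vInf k K (algebraMap k[X] K B) = WithZero.exp ((2 * m : ℕ) : ℤ) := by
    rw [vInf_poly hB, dB]
  have vAB : vInf k K (algebraMap k[X] K A - algebraMap k[X] K B) =
      WithZero.exp ((2 * m : ℕ) : ℤ) := by
    rw [← map_sub, vInf_poly hAB, dAB]
  have hM : IsSquare (WithZero.exp ((2 * m : ℕ) : ℤ)) := by
    refine ⟨WithZero.exp (m : ℤ), ?_⟩
    rw [← WithZero.exp_add]
    congr 1
    push_cast
    ring
  have g := parR (v := vInf k K) (w := wi k K) (fun x => wi_coe x) hs hM WithZero.exp_ne_zero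
    vA.le vB.le
  have key : ∀ {x c : K} {p : k[X]}, p ≠ 0 → c ≠ 0 → x = c ^ 2 * algebraMap k[X] K p →
      IsSquare (vInf k K x) → Even p.natDegree := by
    intro x c p hp hc e hsq
    rw [e, map_mul, map_pow, vInf_poly hp] at hsq
    have hv : vInf k K c ≠ 0 := (Valuation.ne_zero_iff _).2 hc
    have h3 : IsSquare (WithZero.exp (p.natDegree : ℤ)) := by
      obtain ⟨z, hz⟩ := hsq
      refine ⟨z / vInf k K c, ?_⟩
      field_simp
      rw [mul_comm, pow_two z, ← hz]
    have h5 := isSquare_exp.1 h3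
    exact_mod_cast h5
  exact ⟨key h0 n0 f0 (g.1 vA vB), key h1 n1 f1 (g.2.1 vA vAB)⟩

end

end Pool.Agent.V8H26.YB
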