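import Pool.Agent.V8H26.YB.Alg

/-!
# The order of the 2-Selmer group, if the reduction at infinity is good
-/

set_option autoImplicit false
set_option linter.all false

open Polynomial IsDedekindDomain WeierstrassCurve WeierstrassCurve.Affine
open scoped Classical

namespace Pool.Agent.V8H26.YB

open Pool.Agent.TH115.GD Pool.Agent.H341R2.Sharp Finset Pool.Agent.Y164.PS Pool.Agent.V8H26.XA
open Pool.Agent.V8H26.YL (DE dt dt_apply dt_comm FB FB_apply FB_eq FF_key Eb Eb_add Eb_TT clA clE dE sp)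
open Pool.Agent.V8H26.XL (Arr arr dm F2s F2c)
open Pool.Agent.V8H26.YA (sel_vecE Eb_zero spn)

/-- a constant with a given class -/
noncomputable def rr {k : Type} [Field k] [Fintype k] (hk : ringChar k ≠ 2) (x : F2) : k :=
  if x = 0 then 1 else Classical.choose (FiniteField.exists_nonsquare (F := k) hk)

section
variable {k : Type} [Field k] [Fintype k] [DecidableEq k]

theorem rr_ne (hk : ringChar k ≠ 2) (x : F2) : rr (k := k) hk x ≠ 0 := by
  have h := Classical.choose_spec (FiniteField.exists_nonsquare (F := k) hk)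
  rw [rr]
  split_ifs with hx
  · exact one_ne_zero
  · intro h0
    apply h
    rw [h0]
    exact ⟨0, (mul_zero 0).symm⟩

theorem ch_rr (hk : ringChar k ≠ 2) (x : F2) : ch (rr (k := k) hk x) = x := by
  have h := Classical.choose_spec (FiniteField.exists_nonsquare (F := k) hk)
  have h1 := rr_ne (k := k) hk x
  rcases F2c x with rfl | rfl
  · rw [ch_eq_zero_iff h1, rr, if_pos rfl]
    exact ⟨1, (mul_one 1).symm⟩
  · have h2 : ch (rr (k := k) hk 1) ≠ 0 := by
      rw [Ne, ch_eq_zero_iff h1, rr, if_neg one_ne_zero]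
      exact h
    exact (F2c _).resolve_left h2

end

section
variable {k K : Type} [Field k] [Fintype k] [DecidableEq k] [Field K] [Algebra k[X] K]
  [IsFractionRing k[X] K]
variable {a b : k[X]} {N : ℕ} (H : Hyp a b N) {ep : Tau a b → F2}
  (hep : ∀ s, tv a b s = 0 → ep s = 1)
variable {ι : Type} [Fintype ι] {P : ι → k[X]} (hR : Fam (RR a b P))

/-- the space of the solutions -/
noncomputable abbrev SS (P : ι → k[X]) : Submodule (ZMod 2) (V ι (Tau a b) × W) :=
  SX (dE H hep) (dm P) (arr H.hm (QQ a b) P)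

/-- the polynomials of a solution -/
noncomputable def g0 (P : ι → k[X]) (p : V ι (Tau a b) × W) : k[X] :=
  el (RR a b P) (rr H.hk p.2.1) (nw0 a b p.1)

noncomputable def g1 (P : ι → k[X]) (p : V ι (Tau a b) × W) : k[X] :=
  el (RR a b P) (rr H.hk p.2.2) (nw1 a b p.1)

include hR in
theorem g_ne (p : V ι (Tau a b) × W) : g0 H P p ≠ 0 ∧ g1 H P p ≠ 0 :=
  ⟨el_ne hR (rr_ne H.hk _) _, el_ne hR (rr_ne H.hk _) _⟩

variable (hcl : clE (dE H hep) (QQ a b) P)
  (hN : ∑ i, ((P i).natDegree : F2) + (N : F2) = 0)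

include H hR hcl hN in
/-- a locally soluble pair comes from a solution -/
theorem sel_ptR {x y : K} (hx : x ≠ 0) (hy : y ≠ 0)
    (hls : LSg (F := K) k (crv (al K a P) (al K b P)) (al K a P) (al K b P) x y) :
    ∃ p : SS H hep P, SqEq x (algebraMap k[X] K (g0 H P p.1)) ∧
      SqEq y (algebraMap k[X] K (g1 H P p.1)) := by
  have h2 := two_ne H
  obtain ⟨t1, t2, t3⟩ := tw_ne H hR
  obtain ⟨r0, r1, n0, n1, c0, c1, w, hr0, hr1, hc0, hc1, e0, e1, f1, f2, E1z, E2z⟩ :=
    sel_vecE H hep hR hcl hx hy hls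
  set p : V ι (Tau a b) × W := (w, (ch r0, ch r1)) with hp
  have hn : ∀ x : ι ⊕ Tau a b, (((n0 x : F2), (n1 x : F2)) : W) =
      (((nw0 a b w x : ℕ) : F2), ((nw1 a b w x : ℕ) : F2)) := by
    rintro (i | s)
    · rw [nw_inl]; exact f1 i
    · rw [nw_inr]; exact f2 s
  have s0 : SqEq x (algebraMap k[X] K (g0 H P p)) :=
    SqEq.trans ⟨c0, hc0, e0⟩ (glob_el hR hr0 (rr_ne H.hk _) _ _
      (fun x => congrArg Prod.fst (hn x)) (ch_rr H.hk _).symm)
  have s1 : SqEq y (algebraMap k[X] K (g1 H P p)) :=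
    SqEq.trans ⟨c1, hc1, e1⟩ (glob_el hR hr1 (rr_ne H.hk _) _ _
      (fun x => congrArg Prod.snd (hn x)) (ch_rr H.hk _).symm)
  have hdg : dg (datum H) (fun i => ((P i).natDegree : F2)) w = 0 := by
    obtain ⟨m, dA, dB, dAB⟩ := even_deg H hR hN
    have sAB : (a - b) * ∏ i, P i = a * ∏ i, P i - b * ∏ i, P i := sub_mul _ _ _
    have t3' : a * ∏ i, P i - b * ∏ i, P i ≠ 0 := sub_ne_zero.2 t3
    obtain ⟨d0, hd0, q0⟩ := s0
    obtain ⟨d1, hd1, q1⟩ := s1
    obtain ⟨g0n, g1n⟩ := g_ne H hR p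
    obtain ⟨v0, v1⟩ := par_inf (K := K) h2 t1 t2 t3' dA dB (by rw [← sAB]; exact dAB) g0n g1n
      q0 q1 hd0 hd1 hls
    have hdeg : ∀ {r : k} (hr : r ≠ 0) (n : ι ⊕ Tau a b → ℕ),
        (el (RR a b P) r n).natDegree = (el (RR a b P) 1 n).natDegree := by
      intro r hr n
      have h6 : el (RR a b P) r n = C r * el (RR a b P) 1 n := by
        rw [el, el, C_1, one_mul]
      rw [h6, natDegree_C_mul hr]
    rw [g0, hdeg (rr_ne H.hk _), ← cast_eq_zero_iff_even] at v0
    rw [g1, hdeg (rr_ne H.hk _), ← cast_eq_zero_iff_even] at v1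
    rw [← deg_w H hR w]
    exact Prod.ext v0 v1
  refine ⟨⟨p, mem_SX.2 ⟨hdg, E1z, E2z⟩⟩, s0, s1⟩

include H hR hcl hN in
/-- the solutions are locally soluble -/
theorem ls_SS {p : V ι (Tau a b) × W} (hp : p ∈ SS H hep P) :
    LSg (F := K) k (crv (al K a P) (al K b P)) (al K a P) (al K b P)
      (algebraMap k[X] K (g0 H P p)) (algebraMap k[X] K (g1 H P p)) := by
  obtain ⟨h1, h2, h3⟩ := mem_SX.1 hp
  have hx : ((ch (rr (k := k) H.hk p.2.1), ch (rr (k := k) H.hk p.2.2)) : W) = p.2 := by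
    rw [ch_rr, ch_rr]
  exact ls_kerR (K := K) H hR hep hcl hN (rr_ne H.hk _) (rr_ne H.hk _) h1
    (fun i => by rw [hx]; exact h2 i) (fun s => by rw [hx]; exact h3 s)

include H hR hcl hN in
/-- **the order of the 2-Selmer group** -/
theorem sel_cardR :
    (Sl k (al K a P) (al K b P)).ncard = 2 ^ Module.finrank (ZMod 2) (SS H hep P) := by
  let Ψ : SS H hep P → MS K × MS K := fun p =>
    ((un K (g_ne H hR p.1).1 : MS K), (un K (g_ne H hR p.1).2 : MS K))
  have hinj : Function.Injective Ψ := by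
    rintro ⟨p, hp⟩ ⟨p', hp'⟩ h
    have s0 := (ms_eq _ _).1 (congrArg Prod.fst h)
    have s1 := (ms_eq _ _).1 (congrArg Prod.snd h)
    have s0' : SqEq (algebraMap k[X] K (g0 H P p)) (algebraMap k[X] K (g0 H P p')) := s0
    have s1' : SqEq (algebraMap k[X] K (g1 H P p)) (algebraMap k[X] K (g1 H P p')) := s1
    obtain ⟨k0, c0⟩ := el_inj H.hk hR (rr_ne H.hk _) (rr_ne H.hk _) _ _ s0'
    obtain ⟨k1, c1⟩ := el_inj H.hk hR (rr_ne H.hk _) (rr_ne H.hk _) _ _ s1'
    rw [ch_rr, ch_rr] at c0 c1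
    have hv : p.1 = p'.1 := by
      apply vec_ext
      · intro i
        rw [← nw_inl, ← nw_inl p'.1, k0, k1]
      · intro s
        rw [← nw_inr, ← nw_inr p'.1, k0, k1]
      · intro s hs
        rw [Eb_zero H hep (mem_SX.1 hp).2.2 hs, Eb_zero H hep (mem_SX.1 hp').2.2 hs]
    exact Subtype.ext (Prod.ext hv (Prod.ext c0 c1))
  have hrange : Sl k (al K a P) (al K b P) = Set.range Ψ := by
    ext c
    constructor
    · rintro ⟨x, y, rfl, hls⟩
      obtain ⟨p, s0, s1⟩ := sel_ptR H hep hR hcl hN x.ne_zero y.ne_zero hls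
      exact ⟨p, Prod.ext ((ms_eq _ _).2 s0).symm ((ms_eq _ _).2 s1).symm⟩
    · rintro ⟨⟨p, hp⟩, rfl⟩
      exact ⟨_, _, rfl, ls_SS (K := K) H hep hR hcl hN hp⟩
  rw [hrange, ← Nat.card_coe_set_eq, Nat.card_range_of_injective hinj,
    Module.natCard_eq_pow_finrank (K := ZMod 2), Nat.card_zmod]

include H hR hcl hN in
/-- with the least dimension every locally soluble pair is the pair of a point of order two -/
theorem sel_mainR (j : ι) (h0 : Module.finrank (ZMod 2) (SS H hep P) = 2) {a0 a1 : K}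
    (ha0 : a0 ≠ 0) (ha1 : a1 ≠ 0)
    (hls : LSg (F := K) k (crv (al K a P) (al K b P)) (al K a P) (al K b P) a0 a1) :
    ∃ T : Pt (crv (al K a P) (al K b P)) K, T + T = 0 ∧
      SqEq a0 (d0 (al K a P) (al K b P) T) ∧ SqEq a1 (d1 (al K a P) (al K b P) T) := by
  obtain ⟨p, s0, s1⟩ := sel_ptR H hep hR hcl hN ha0 ha1 hls
  have hNd : ∑ i, dm P i + (dE H hep).N = 0 := hN
  obtain ⟨z, hz⟩ := SX_surj (D := dE H hep) (d := dm P) (A := arr H.hm (QQ a b) P) j hcl hNd h0 p.2
  obtain ⟨T, hT, e0, e1⟩ := tor_T (K := K) H hR z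
  have hn : ∀ x : ι ⊕ Tau a b, (((nw0 a b p.1.1 x : F2), (nw1 a b p.1.1 x : F2)) : W) =
      ((np0 ι a b z x : F2), (np1 ι a b z x : F2)) := by
    rw [hz]
    rintro (i | s)
    · rw [nw_inl, np_inl]
      rfl
    · rw [nw_inr, np_inr H]
      rfl
  have hch : ((ch (rr (k := k) H.hk p.1.2.1), ch (rr (k := k) H.hk p.1.2.2)) : W) =
      (ch (rp0 a b z), ch (rp1 a b z)) := by
    rw [ch_rr, ch_rr, rp_ch H, hz]
    rfl
  refine ⟨T, hT, ?_, ?_⟩
  · rw [e0]
    exact s0.trans (glob_el hR (rr_ne H.hk _) (rp_ne H z).1 _ _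
      (fun x => congrArg Prod.fst (hn x)) (congrArg Prod.fst hch))
  · rw [e1]
    exact s1.trans (glob_el hR (rr_ne H.hk _) (rp_ne H z).2 _ _
      (fun x => congrArg Prod.snd (hn x)) (congrArg Prod.snd hch))

include H hR hcl hN in
/-- If the dimension is two, then the Tate-Shafarevich group has trivial 2-primary part, and all
points are twice a point plus a point of order two. -/
theorem good_of_trivR (j : ι) (h0 : Module.finrank (ZMod 2) (SS H hep P) = 2) :
    ShaTwo k (crv (al K a P) (al K b P)) ∧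
      ∀ Q : Pt (crv (al K a P) (al K b P)) K, ∃ R T : Pt (crv (al K a P) (al K b P)) K,
        T + T = 0 ∧ Q = R + R + T := by
  have h2 := two_ne H
  obtain ⟨t1, t2, t3⟩ := tw_ne H hR
  have inj := IsFractionRing.injective k[X] K
  have h2K : (2 : K) ≠ 0 := tt h2
  have haK : al K a P ≠ 0 := by
    rw [al, Ne, IsFractionRing.to_map_eq_zero_iff]; exact t1
  have hbK : al K b P ≠ 0 := by
    rw [al, Ne, IsFractionRing.to_map_eq_zero_iff]; exact t2
  have habK : al K a P ≠ al K b P := fun h => t3 (inj h)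
  constructor
  · apply sha_of_points h2K haK hbK habK
    intro a0 a1 n0 n1 hls
    obtain ⟨T, -, q0, q1⟩ := sel_mainR H hep hR hcl hN j h0 n0 n1 hls
    exact ⟨T, q0, q1⟩
  · intro Q
    have hE := isE (al K a P) (al K b P) K h2K haK hbK habK
    obtain ⟨T, hTT, q0, q1⟩ := sel_mainR H hep hR hcl hN j h0 (d0_ne hE Q) (d1_ne hE Q)
      (ls_of_point (k := k) h2K haK hbK habK Q)
    obtain ⟨u0, u1, m0, m1, f0, f1⟩ := d_add (K := K) (F := K) (Ω := Sep K)
      (crv (al K a P) (al K b P)) (isE (al K a P) (al K b P) (Sep K) h2K haK hbK habK) Q T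
    have s0 : SqEq (d0 (al K a P) (al K b P) (Q + T)) 1 := by
      refine SqEq.trans ⟨u0, m0, f0⟩ ?_
      have h3 := q0.mul (SqEq.refl (d0 (al K a P) (al K b P) T))
      refine h3.trans ?_
      rw [← pow_two]
      exact SqEq.sq (d0_ne hE T)
    have s1 : SqEq (d1 (al K a P) (al K b P) (Q + T)) 1 := by
      refine SqEq.trans ⟨u1, m1, f1⟩ ?_
      have h3 := q1.mul (SqEq.refl (d1 (al K a P) (al K b P) T))
      refine h3.trans ?_
      rw [← pow_two]
      exact SqEq.sq (d1_ne hE T)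
    obtain ⟨R, hRR⟩ := half_F h2K haK hbK habK (Q + T) s0 s1
    refine ⟨R, T, hTT, ?_⟩
    rw [hRR, add_assoc, hTT, add_zero]

include hR hcl hN in
/-- the dimension is two if and only if the group of points is finite and the Tate-Shafarevich
group has no 2-primary part -/
theorem rk_two_iffR (j : ι) : Module.finrank (ZMod 2) (SS H hep P) = 2 ↔
      Finite (Pt (crv (al K a P) (al K b P)) K) ∧ ShaTwo k (crv (al K a P) (al K b P)) := by
  have h2 := two_ne H
  obtain ⟨t1, t2, t3⟩ := tw_ne H hR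
  have inj := IsFractionRing.injective k[X] K
  have h2K : (2 : K) ≠ 0 := tt h2
  have haK : al K a P ≠ 0 := by
    rw [al, Ne, IsFractionRing.to_map_eq_zero_iff]; exact t1
  have hbK : al K b P ≠ 0 := by
    rw [al, Ne, IsFractionRing.to_map_eq_zero_iff]; exact t2
  have habK : al K a P ≠ al K b P := fun h => t3 (inj h)
  constructor
  · intro h
    obtain ⟨g1, g2⟩ := good_of_trivR (K := K) H hep hR hcl hN j h
    exact ⟨fin_points h2 t1 t2 t3 g2, g1⟩
  · rintro ⟨h, h'⟩
    have h3 := sl_le (k := k) h2K haK hbK habK h h'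
    rw [sel_cardR H hep hR hcl hN] at h3
    have hNd : ∑ i, dm P i + (dE H hep).N = 0 := hN
    have h5 : 2 ≤ Module.finrank (ZMod 2) (SS H hep P) := SX_two j hcl hNd
    by_contra h4
    have h6 : 2 ^ 3 ≤ 2 ^ (Module.finrank (ZMod 2) (SS H hep P)) :=
      Nat.pow_le_pow_right (by norm_num) (by omega)
    omega

end

section
variable {k : Type} [Field k] [Fintype k] [DecidableEq k] (K : Type) [Field K] [Algebra k[X] K]
  [IsFractionRing k[X] K]
variable {a b : k[X]} {N : ℕ} (H : Hyp a b N) {ep : Tau a b → F2}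
  (hep : ∀ s, tv a b s = 0 → ep s = 1)

open Filter Topology
open Pool.Agent.V8H26.YL (P1E P2E gclE clE_iff be be_mem Cvp_Fe)

include H hep in
/-- the statement for one polynomial in a class -/
theorem one_clsR {n : ℕ} (hn : 1 ≤ n) (ho : (n : F2) + (N : F2) = 0) (hτ : Nonempty (Tau a b))
    {D : k[X]} (hSf : D ∈ Sf k n) (hP1 : P1E a b ep D) :
    (∃ r : ℕ, r % 2 = spn ep % 2 ∧ so k K a b D = 2 ^ (r + 2)) ∧
      (so k K a b D = 4 ↔
        Finite (Pt (crv (algebraMap k[X] K (a * D)) (algebraMap k[X] K (b * D))) K) ∧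
        ShaTwo k (crv (algebraMap k[X] K (a * D)) (algebraMap k[X] K (b * D)))) := by
  obtain ⟨m1, m2, m3⟩ := mem_Sf.1 hSf
  have hmp := fun P => (mem_pf (P := P) m1.ne_zero)
  have hTp : (fun i : pf D => (i : k[X])) ∈ Tp k (pf D) n := by
    rw [mem_Tp]
    refine ⟨fun i => ?_, ?_⟩
    · have := (hmp i.1).1 i.2
      exact ⟨this.1, this.2.1⟩
    · rw [Finset.sum_coe_sort (pf D) (fun P : k[X] => P.natDegree)]
      exact deg_pf hSf
  have hprod : ∏ i : pf D, (i : k[X]) = D := by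
    rw [Finset.prod_coe_sort (pf D) (fun P : k[X] => P)]
    exact prod_pf hSf
  have hnb : nb a b (∏ i : pf D, (i : k[X])) := by rw [hprod]; exact hP1.1
  have hok : ok (QQ a b) (fun i : pf D => (i : k[X])) :=
    (ok_iff H hTp).2 ⟨Subtype.val_injective, hnb⟩
  have hcl : clE (dE H hep) (QQ a b) (fun i : pf D => (i : k[X])) :=
    (clE_iff H hep hTp hnb).2 (by rw [hprod]; exact hP1.2)
  have h7 := (mem_Tp.1 hTp)
  have hR : Fam (Sum.elim (fun i : pf D => (i : k[X])) (QQ a b)) := by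
    refine ⟨?_, ?_, hok⟩
    · rintro (i | s)
      · exact (h7.1 i).1
      · exact H.fam.mon s
    · rintro (i | s)
      · exact (h7.1 i).2
      · exact H.fam.irr s
  have hN : ∑ i : pf D, (((i : k[X]).natDegree : F2)) + (N : F2) = 0 := by
    have h9 : ∑ i : pf D, (((i : k[X]).natDegree : F2)) = (n : F2) := by
      have h10 := congrArg (fun x : ℕ => (x : F2)) h7.2
      simp only [Nat.cast_sum] at h10
      exact h10
    rw [h9]
    exact ho
  obtain ⟨j⟩ : Nonempty (pf D) := by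
    by_contra h
    rw [not_nonempty_iff] at h
    have h11 := h7.2
    rw [Finset.univ_eq_empty, Finset.sum_empty] at h11
    omega
  have h12 : so k K a b (∏ i : pf D, (i : k[X])) = _ := sel_cardR (K := K) H hep hR hcl hN
  obtain ⟨f, hf⟩ : ∃ f : ℕ, f = Module.finrank (ZMod 2) (SS H hep fun i : pf D => (i : k[X])) :=
    ⟨_, rfl⟩
  have h13 : Module.finrank (ZMod 2) (SS H hep fun i : pf D => (i : k[X])) % 2 =
      sp (dE H hep) % 2 := SX_mod hτ
  have h14 := rk_two_iffR (K := K) H hep hR hcl hN j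
  have hNd : ∑ i, dm (fun i : pf D => (i : k[X])) i + (dE H hep).N = 0 := hN
  have h16 : 2 ≤ Module.finrank (ZMod 2) (SS H hep fun i : pf D => (i : k[X])) := SX_two j hcl hNd
  have h17 : sp (dE H hep) = spn ep := rfl
  have h12' : so k K a b (∏ i : pf D, (i : k[X])) = 2 ^ f := by rw [hf]; exact h12
  have h13' : f % 2 = spn ep % 2 := by rw [hf, ← h17]; exact h13
  have h16' : 2 ≤ f := by rw [hf]; exact h16
  have h14' := h14
  rw [al, al, hprod, ← hf] at h14'
  rw [hprod] at h12'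
  rw [h12']
  constructor
  · refine ⟨f - 2, ?_, ?_⟩
    · omega
    · congr 1
      omega
  · rw [← h14']
    constructor
    · intro h
      have h15 : 2 ^ f = 2 ^ 2 := h
      exact Nat.pow_right_injective (le_refl 2) h15
    · intro h
      rw [h]
      norm_num

include H hep in
/-- the law in a class -/
theorem law_clsR (hq : 4 ≤ Fintype.card k)
    (h2t : ∀ u : W, u ≠ 0 → ∃ s, om u ((datum H).t s) ≠ 0) {r : ℕ} (hr : r % 2 = spn ep % 2) :
    Tendsto (fun n : ℕ => (((Sf k n).filter (P2E (fun D => so k K a b D = 2 ^ (r + 2)) a b ep)).card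
      : ℝ) / (((Sf k n).filter (P1E a b ep)).card : ℝ))
      (atTop ⊓ 𝓟 {n | (n : F2) + (N : F2) = 0}) (𝓝 (be r)) := by
  have hmain := Pool.Agent.V8H26.YM.main_law H hep hq h2t
  have hso : ∀ (ι : Type) [Fintype ι] (T : ι → k[X]), Fam (Sum.elim T (QQ a b)) →
      clE (dE H hep) (QQ a b) T → ∑ i, ((T i).natDegree : F2) + (N : F2) = 0 →
      Pool.Agent.V8H26.YM.oddT T → so k K a b (∏ i, T i) = 2 ^ (Pool.Agent.V8H26.YL.rk H hep T) ∧
        2 ≤ Pool.Agent.V8H26.YL.rk H hep T := by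
    intro ι _ T hR hcl hN hodd
    obtain ⟨j, hj⟩ := hodd
    have h1 : Module.finrank (ZMod 2) (SS H hep T) = Pool.Agent.V8H26.YL.rk H hep T := SX_r0 hj
    have hNd : ∑ i, dm T i + (dE H hep).N = 0 := hN
    rw [← h1]
    exact ⟨sel_cardR (K := K) H hep hR hcl hN, SX_two j hcl hNd⟩
  have i1 : Pool.Agent.V8H26.YM.Imp1 H hep r (fun D => so k K a b D = 2 ^ (r + 2)) := by
    intro ι _ T hR hcl hN hodd hT
    obtain ⟨h3, h4⟩ := hso ι T hR hcl hN hodd
    show so k K a b (∏ i, T i) = _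
    rw [h3]
    congr 1
    omega
  have i2 : Pool.Agent.V8H26.YM.Imp2 H hep r (fun D => so k K a b D = 2 ^ (r + 2)) := by
    intro ι _ T hR hcl hN hodd hT
    obtain ⟨h4, h5⟩ := hso ι T hR hcl hN hodd
    have h3 : so k K a b (∏ i, T i) = _ := hT
    rw [h4] at h3
    have h4 := Nat.pow_right_injective (le_refl 2) h3
    have h6 : Pool.Agent.V8H26.YL.rk H hep T = r + 2 := h4
    omega
  obtain ⟨m1, m2⟩ := hmain.2 r (fun D => so k K a b D = 2 ^ (r + 2)) (be r) (be_mem r).1
    (be_mem r).2 (by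
      have h5 : sp (dE H hep) = spn ep := rfl
      rw [h5, ← hr]
      exact Cvp_Fe r)
  obtain ⟨c, hc, hpos⟩ := hmain.1
  rw [Metric.tendsto_nhds]
  intro ε hε
  have hε' : 0 < ε / 2 := half_pos hε
  rw [eventually_inf_principal]
  filter_upwards [m1 i1 _ hε', m2 i2 _ hε', hpos] with n h1 h3 h4 ho
  have h5 : (0 : ℝ) < (((Sf k n).filter (P1E a b ep)).card : ℝ) := by
    refine lt_of_lt_of_le ?_ (h4 ho)
    have : (0 : ℝ) < Fintype.card k := by exact_mod_cast Fintype.card_pos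
    positivity
  rw [Real.dist_eq]
  have h6 := h1 ho
  have h7 := h3 ho
  have h8 : |(((Sf k n).filter (P2E (fun D => so k K a b D = 2 ^ (r + 2)) a b ep)).card : ℝ) /
      (((Sf k n).filter (P1E a b ep)).card : ℝ) - be r| ≤ ε / 2 := by
    rw [abs_le]
    constructor
    · have := (le_div_iff₀ h5).2 h6
      linarith
    · have := (div_le_iff₀ h5).2 h7
      linarith
  exact h8.trans_lt (half_lt_self hε)

end

end Pool.Agent.V8H26.YB
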